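import Mathlib

/-! Generic properties of points of an affine space. -/

namespace Pool.Agent.P.MP_c64be1_ag.Sh

open MvPolynomial Filter

variable {κ : Type}

/-- Polynomial functions. -/
def PF (κ : Type) : Subalgebra ℂ ((κ → ℂ) → ℂ) where
  carrier := {f | ∃ Q : MvPolynomial κ ℂ, ∀ x, f x = eval x Q}
  mul_mem' := by
    rintro f g ⟨P, hP⟩ ⟨Q, hQ⟩
    exact ⟨P * Q, fun x => by simp [hP, hQ]⟩
  add_mem' := by
    rintro f g ⟨P, hP⟩ ⟨Q, hQ⟩
    exact ⟨P + Q, fun x => by simp [hP, hQ]⟩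
  algebraMap_mem' := fun a => ⟨C a, fun x => by simp⟩

theorem PF_coord (i : κ) : (fun x : κ → ℂ => x i) ∈ PF κ := ⟨X i, fun x => by simp⟩

theorem PF_const (a : ℂ) : (fun _ : κ → ℂ => a) ∈ PF κ := ⟨C a, fun x => by simp⟩

theorem PF_mul {f g : (κ → ℂ) → ℂ} (hf : f ∈ PF κ) (hg : g ∈ PF κ) :
    (fun x => f x * g x) ∈ PF κ := mul_mem hf hg

theorem PF_pow {f : (κ → ℂ) → ℂ} (hf : f ∈ PF κ) (n : ℕ) : (fun x => f x ^ n) ∈ PF κ :=
  pow_mem hf n

theorem PF_sum {ι : Type} (s : Finset ι) {f : ι → (κ → ℂ) → ℂ} (hf : ∀ i ∈ s, f i ∈ PF κ) :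
    (fun x => ∑ i ∈ s, f i x) ∈ PF κ := by
  have h := sum_mem hf
  rwa [show ∑ i ∈ s, f i = fun x => ∑ i ∈ s, f i x from funext fun x => Finset.sum_apply x s f]
    at h

theorem PF_prod {ι : Type} (s : Finset ι) {f : ι → (κ → ℂ) → ℂ} (hf : ∀ i ∈ s, f i ∈ PF κ) :
    (fun x => ∏ i ∈ s, f i x) ∈ PF κ := by
  have h := prod_mem hf
  rwa [show ∏ i ∈ s, f i = fun x => ∏ i ∈ s, f i x from funext fun x => Finset.prod_apply x s f]
    at h

theorem PF_det {B : Type} [Fintype B] [DecidableEq B] {L : (κ → ℂ) → Matrix B B ℂ}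
    (hL : ∀ a b, (fun x => L x a b) ∈ PF κ) : (fun x => (L x).det) ∈ PF κ := by
  simp only [Matrix.det_apply']
  exact PF_sum _ fun σ _ => PF_mul (PF_const _) (PF_prod _ fun i _ => hL _ _)

/-- The filter of sets that contain a nonempty Zariski open set. -/
def gen (κ : Type) : Filter (κ → ℂ) where
  sets := {S | ∃ Q : MvPolynomial κ ℂ, Q ≠ 0 ∧ ∀ x, eval x Q ≠ 0 → x ∈ S}
  univ_sets := ⟨1, one_ne_zero, fun _ _ => trivial⟩
  sets_of_superset := by
    rintro S T ⟨Q, h1, h2⟩ h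
    exact ⟨Q, h1, fun x hx => h (h2 x hx)⟩
  inter_sets := by
    rintro S T ⟨P, h1, h2⟩ ⟨Q, k1, k2⟩
    refine ⟨P * Q, mul_ne_zero h1 k1, fun x hx => ?_⟩
    rw [map_mul] at hx
    exact ⟨h2 x (left_ne_zero_of_mul hx), k2 x (right_ne_zero_of_mul hx)⟩

instance gen_neBot : (gen κ).NeBot := by
  refine ⟨fun h => ?_⟩
  obtain ⟨Q, h1, h2⟩ : ∅ ∈ gen κ := h ▸ mem_bot
  exact h1 (MvPolynomial.funext fun x => by
    rw [map_zero]
    by_contra hn
    exact h2 x hn)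

theorem gen_ne {f : (κ → ℂ) → ℂ} (hf : f ∈ PF κ) {x₀ : κ → ℂ} (h : f x₀ ≠ 0) :
    ∀ᶠ x in gen κ, f x ≠ 0 := by
  obtain ⟨Q, hQ⟩ := hf
  refine ⟨Q, fun h0 => h ?_, fun x hx => ?_⟩
  · rw [hQ, h0, map_zero]
  · rwa [Set.mem_ofPred_eq, hQ]

theorem eq_zero_of_gen {f : (κ → ℂ) → ℂ} (hf : f ∈ PF κ) (h : ∀ᶠ x in gen κ, f x = 0)
    (x₀ : κ → ℂ) : f x₀ = 0 := by
  by_contra hn
  obtain ⟨x, h1, h2⟩ := (h.and (gen_ne hf hn)).exists
  exact h2 h1

/-- A polynomial family of linear systems with only the trivial solution at one point has only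
the trivial solution generically. -/
theorem gen_inj {S B : Type} [Fintype B] (ρ : S → B → (κ → ℂ) → ℂ) (hρ : ∀ s b, ρ s b ∈ PF κ)
    {x₀ : κ → ℂ} (h : ∀ f : B → ℂ, (∀ s, ∑ b, ρ s b x₀ * f b = 0) → f = 0) :
    ∀ᶠ x in gen κ, ∀ f : B → ℂ, (∀ s, ∑ b, ρ s b x * f b = 0) → f = 0 := by
  classical
  have h1 : Submodule.span ℂ (Set.range fun s b => ρ s b x₀) = ⊤ := by
    by_contra hn
    obtain ⟨φ, h2, h3⟩ := Submodule.exists_le_ker_of_lt_top _ (lt_top_iff_ne_top.2 hn)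
    have h4 := h (fun b => φ (Pi.single b 1)) fun s => by
      have h5 := h3 (Submodule.subset_span ⟨s, rfl⟩)
      rw [LinearMap.mem_ker, LinearMap.pi_apply_eq_sum_univ] at h5
      refine Eq.trans (Finset.sum_congr rfl fun b _ => ?_) h5
      congr 2
      funext b'
      simp [Pi.single_apply, eq_comm]
    refine h2 (LinearMap.pi_ext' fun b => LinearMap.ext_ring ?_)
    exact congrFun h4 b
  have h2 : ∀ b : B, ∃ c : S →₀ ℂ, c.sum (fun s a => a • fun b' => ρ s b' x₀) = Pi.single b 1 :=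
    fun b => (Finsupp.mem_span_range_iff_exists_finsupp.1 (h1 ▸ Submodule.mem_top))
  choose c hc using h2
  let L : (κ → ℂ) → Matrix B B ℂ := fun x b b' => ∑ s ∈ (c b).support, c b s * ρ s b' x
  have h3 : L x₀ = 1 := by
    ext b b'
    have h4 := congrFun (hc b) b'
    rw [Finsupp.sum, Finset.sum_apply] at h4
    rw [Matrix.one_apply, show L x₀ b b' = Pi.single (M := fun _ => ℂ) b 1 b' from h4,
      Pi.single_apply]
    simp only [eq_comm]
  have h4 : ∀ᶠ x in gen κ, (L x).det ≠ 0 := gen_ne (x₀ := x₀)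
    (PF_det fun a b => PF_sum _ fun s _ => PF_mul (PF_const _) (hρ s b))
    (by rw [h3, Matrix.det_one]; exact one_ne_zero)
  filter_upwards [h4] with x hx f hf
  refine Matrix.eq_zero_of_mulVec_eq_zero hx (funext fun b => ?_)
  simp only [Matrix.mulVec, dotProduct, L, Finset.sum_mul, mul_assoc]
  rw [Finset.sum_comm]
  refine Finset.sum_eq_zero fun s _ => ?_
  rw [← Finset.mul_sum, hf s, mul_zero]

/-- Polynomial families of polynomials. -/
def PV (κ σ : Type) : Subring ((κ → ℂ) → MvPolynomial σ ℂ) where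
  carrier := {F | ∃ G : MvPolynomial σ (MvPolynomial κ ℂ), ∀ x, F x = map (eval x) G}
  mul_mem' := by
    rintro f g ⟨P, hP⟩ ⟨Q, hQ⟩
    exact ⟨P * Q, fun x => by simp [hP, hQ]⟩
  add_mem' := by
    rintro f g ⟨P, hP⟩ ⟨Q, hQ⟩
    exact ⟨P + Q, fun x => by simp [hP, hQ]⟩
  one_mem' := ⟨1, fun x => by simp⟩
  zero_mem' := ⟨0, fun x => by simp⟩
  neg_mem' := by
    rintro f ⟨P, hP⟩
    exact ⟨-P, fun x => by simp [hP]⟩

variable {σ : Type}

theorem PV_coeff {F : (κ → ℂ) → MvPolynomial σ ℂ} (hF : F ∈ PV κ σ) (m : σ →₀ ℕ) :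
    (fun x => coeff m (F x)) ∈ PF κ := by
  obtain ⟨G, hG⟩ := hF
  exact ⟨coeff m G, fun x => by simp only [hG, coeff_map]⟩

theorem PV_lin [Fintype σ] {v : (κ → ℂ) → σ → ℂ} (hv : ∀ a, (fun x => v x a) ∈ PF κ) :
    (fun x => ∑ a, C (v x a) * X a) ∈ PV κ σ := by
  choose Q hQ using hv
  exact ⟨∑ a, C (Q a) * X a, fun x => by simp [← hQ]⟩

theorem PV_prod {ι : Type} (s : Finset ι) {f : ι → (κ → ℂ) → MvPolynomial σ ℂ}
    (hf : ∀ i ∈ s, f i ∈ PV κ σ) : (fun x => ∏ i ∈ s, f i x) ∈ PV κ σ := by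
  have h := prod_mem hf
  rwa [show ∏ i ∈ s, f i = fun x => ∏ i ∈ s, f i x from funext fun x => Finset.prod_apply x s f]
    at h

theorem gen_li {B : Type} [Fintype B] (v : B → (κ → ℂ) → MvPolynomial σ ℂ)
    (hv : ∀ b, v b ∈ PV κ σ) {x₀ : κ → ℂ} (h : LinearIndependent ℂ fun b => v b x₀) :
    ∀ᶠ x in gen κ, LinearIndependent ℂ fun b => v b x := by
  have key : ∀ x (f : B → ℂ), (∀ m, ∑ b, coeff m (v b x) * f b = 0) ↔ ∑ b, f b • v b x = 0 := by
    intro x f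
    rw [MvPolynomial.ext_iff]
    refine forall_congr' fun m => ?_
    simp only [coeff_sum, coeff_smul, smul_eq_mul, coeff_zero, mul_comm]
  have h1 := gen_inj (fun m b x => coeff m (v b x)) (fun m b => PV_coeff (hv b) m) (x₀ := x₀)
    fun f hf => funext (Fintype.linearIndependent_iff.1 h f ((key _ f).1 hf))
  filter_upwards [h1] with x hx
  exact Fintype.linearIndependent_iff.2 fun f hf => congrFun (hx f ((key _ f).2 hf))

/-- An independent subfamily that spans. -/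
theorem exists_sub {T W : Type} [Finite T] [AddCommGroup W] [Module ℂ W] (v : T → W) :
    ∃ j : Fin (Module.finrank ℂ (Submodule.span ℂ (Set.range v))) → T,
      LinearIndependent ℂ fun l => v (j l) := by
  obtain ⟨B, a, h1, h2, h3⟩ := exists_linearIndependent' ℂ v
  have : Finite B := Finite.of_injective a h1
  let := Fintype.ofFinite B
  have h4 : Module.finrank ℂ (Submodule.span ℂ (Set.range v)) = Fintype.card B := by
    rw [← h2, finrank_span_eq_card h3]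
  let e := (Fintype.equivFinOfCardEq h4.symm).symm
  exact ⟨fun l => a (e l), h3.comp e e.injective⟩

/-- Lower semicontinuity of the rank. -/
theorem gen_rank {T : Type} [Finite T] (v : T → (κ → ℂ) → MvPolynomial σ ℂ)
    (hv : ∀ t, v t ∈ PV κ σ) (x₀ : κ → ℂ) :
    ∀ᶠ x in gen κ, Module.finrank ℂ (Submodule.span ℂ (Set.range fun t => v t x₀)) ≤
      Module.finrank ℂ (Submodule.span ℂ (Set.range fun t => v t x)) := by
  obtain ⟨j, hj⟩ := exists_sub fun t => v t x₀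
  filter_upwards [gen_li (fun l => v (j l)) (fun l => hv _) hj] with x hx
  have h1 := finrank_span_eq_card hx
  rw [Fintype.card_fin] at h1
  rw [← h1]
  have : FiniteDimensional ℂ (Submodule.span ℂ (Set.range fun t => v t x)) :=
    FiniteDimensional.span_of_finite ℂ (Set.finite_range _)
  refine Submodule.finrank_mono (Submodule.span_mono ?_)
  rintro _ ⟨l, rfl⟩
  exact ⟨j l, rfl⟩

end Pool.Agent.P.MP_c64be1_ag.Sh
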