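import Pool.Agent.P.MP_c64be1_ag.Sh.Split

/-! Degeneration of the rational normal curve into blocks. -/

namespace Pool.Agent.P.MP_c64be1_ag.Sh

open Filter Function

variable {ι I Γ L : Type}

/-- The vectors that contain the points of one of the objects. -/
def CylM (vec : Γ → L → ℂ) (O : I → Multiset Γ) : Set (ι → L → ℂ) :=
  {η | ∃ (i : I) (e : Finset ι) (γ : ι → Γ), e.val.map γ = O i ∧ ∀ a ∈ e, η a = vec (γ a)}

/-- The cylinders seen by the pattern `A` of blocks. -/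
def CylP {M : ℕ} (w : ℕ) (O : I → Multiset (Fin M × ℂ)) (A : ι → Fin M) : Set (ι → Fin w → ℂ) :=
  {η | ∃ (i : I) (e : Finset ι) (γ : ι → Fin M × ℂ), e.val.map γ = O i ∧
    ∀ a ∈ e, (γ a).1 = A a ∧ η a = rnc Fin.val (γ a).2}

variable {M w : ℕ}

/-- The exponent with given block and offset. -/
def ex (α : Fin M × Fin w) : ℕ := α.1 * w + α.2

/-- The affine functions whose maximum defines the degeneration. -/
def LL (w b t : ℤ) : ℤ := 2 * b * t - w * b * (b + 1) + b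

theorem LL_lt {b : Fin M} {α : Fin M × Fin w} (h : α.1 ≠ b) :
    LL w b (ex α) < LL w α.1 (ex α) := by
  have h1 : ((α.2 : ℕ) : ℤ) + 1 ≤ w := by exact_mod_cast α.2.2
  have h2 : (0 : ℤ) ≤ (α.2 : ℕ) := Nat.cast_nonneg _
  have h3 : ((ex α : ℕ) : ℤ) = (α.1 : ℕ) * w + (α.2 : ℕ) := by simp [ex]
  have h4 : LL w α.1 (ex α) - LL w b (ex α) = (((α.1 : ℕ) : ℤ) - (b : ℕ)) *
      (w * ((α.1 : ℕ) - (b : ℕ) - 1) + 2 * (α.2 : ℕ) + 1) := by
    rw [h3, LL, LL]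
    ring
  rw [← sub_pos, h4]
  rcases lt_or_gt_of_ne h with h | h
  · have h5 : ((α.1 : ℕ) : ℤ) + 1 ≤ (b : ℕ) := by exact_mod_cast h
    exact mul_pos_of_neg_of_neg (by omega) (by nlinarith)
  · have h5 : ((b : ℕ) : ℤ) + 1 ≤ (α.1 : ℕ) := by exact_mod_cast h
    exact mul_pos (by omega) (by nlinarith)

/-- The degenerating family of vectors. -/
noncomputable def vec (w : ℕ) (t : ℂ) (γ : Fin M × ℂ) : Fin M × Fin w → ℂ := fun α =>
  t ^ (LL w α.1 (ex α) - LL w γ.1 (ex α)).toNat * (γ.2 ^ ex α * (γ.2 ^ (γ.1 * w : ℕ))⁻¹)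

theorem vec_zero {γ : Fin M × ℂ} (h : γ.2 ≠ 0) (α : Fin M × Fin w) :
    vec w 0 γ α = if α.1 = γ.1 then γ.2 ^ (α.2 : ℕ) else 0 := by
  by_cases h1 : α.1 = γ.1
  · rw [if_pos h1, vec, ← h1, sub_self, Int.toNat_zero, pow_zero, one_mul, ex, pow_add,
      mul_right_comm, mul_inv_cancel₀ (pow_ne_zero _ h), one_mul]
  · have h2 := LL_lt (w := w) h1
    rw [if_neg h1, vec, zero_pow (by omega), zero_mul]

theorem vec_scale {t : ℂ} (ht : t ≠ 0) (γ : Fin M × ℂ) : ∃ z : ℂ, ∀ α : Fin M × Fin w,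
    vec w t γ α * t ^ (-LL w α.1 (ex α)) = z * rnc ex (γ.2 * t ^ (-(2 * (γ.1 : ℕ) : ℤ))) α := by
  refine ⟨t ^ ((w : ℤ) * (γ.1 : ℕ) * ((γ.1 : ℕ) + 1) - (γ.1 : ℕ)) * (γ.2 ^ (γ.1 * w : ℕ))⁻¹,
    fun α => ?_⟩
  have h1 : 0 ≤ LL w α.1 (ex α) - LL w γ.1 (ex α) := by
    by_cases h : α.1 = γ.1
    · rw [h, sub_self]
    · exact (sub_pos.2 (LL_lt h)).le
  have h2 : t ^ (LL w α.1 (ex α) - LL w γ.1 (ex α)) * t ^ (-LL w α.1 (ex α)) =
      t ^ ((w : ℤ) * (γ.1 : ℕ) * ((γ.1 : ℕ) + 1) - (γ.1 : ℕ)) *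
        (t ^ (-(2 * (γ.1 : ℕ) : ℤ))) ^ ex α := by
    rw [← zpow_natCast (t ^ _), ← zpow_mul, ← zpow_add₀ ht, ← zpow_add₀ ht]
    congr 1
    simp only [LL]
    ring
  rw [vec, ← zpow_natCast t, Int.toNat_of_nonneg h1, rnc, mul_pow]
  linear_combination γ.2 ^ ex α * (γ.2 ^ (γ.1 * w : ℕ))⁻¹ * h2

theorem TT_col {A : Finset ι} (z : L → ℂ) {F : (ι → L → ℂ) → ℂ} (hF : F ∈ TT L A) :
    (fun η => F fun a α => η a α * z α) ∈ TT L A := by
  refine TT_ind (fun F => (fun η => F fun a α => η a α * z α) ∈ TT L A) (fun β => ?_)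
    (zero_mem _) (fun F G k1 k2 => add_mem k1 k2) (fun z F k => Submodule.smul_mem _ z k) hF
  convert Submodule.smul_mem _ (∏ a ∈ A, z (β a)) (mono_mem A β) using 1
  funext η
  simp only [mono, Finset.prod_mul_distrib, Pi.smul_apply, smul_eq_mul, mul_comm]

variable [Fintype ι] [DecidableEq ι]

/-- Extension by zero outside the blocks of a pattern. -/
def ext0 (A : ι → Fin M) (η : ι → Fin w → ℂ) : ι → Fin M × Fin w → ℂ :=
  fun a α => if α.1 = A a then η a α.2 else 0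

omit [DecidableEq ι] in
theorem mono_ext0 (A : ι → Fin M) (β : ι → Fin M × Fin w) (η : ι → Fin w → ℂ) :
    mono Finset.univ β (ext0 A η) =
      if (fun a => (β a).1) = A then mono Finset.univ (fun a => (β a).2) η else 0 := by
  simp only [mono, ext0, Finset.prod_ite_zero, Finset.mem_univ, forall_true_left, funext_iff]

omit [DecidableEq ι] in
theorem TT_ext0 (A : ι → Fin M) {F : (ι → Fin M × Fin w → ℂ) → ℂ}
    (hF : F ∈ TT (Fin M × Fin w) Finset.univ) :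
    (fun η => F (ext0 A η)) ∈ TT (Fin w) (Finset.univ : Finset ι) := by
  refine TT_ind (fun F => (fun η => F (ext0 A η)) ∈ TT (Fin w) (Finset.univ : Finset ι))
    (fun β => ?_) (zero_mem _) (fun F G k1 k2 => add_mem k1 k2)
    (fun z F k => Submodule.smul_mem _ z k) hF
  simp only [mono_ext0]
  split_ifs
  · exact mono_mem _ _
  · exact zero_mem _

theorem TT_blocks {F : (ι → Fin M × Fin w → ℂ) → ℂ} (hF : F ∈ TT (Fin M × Fin w) Finset.univ)
    (η : ι → Fin M × Fin w → ℂ) : F η = ∑ A : ι → Fin M, F (ext0 A fun a l => η a (A a, l)) := by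
  refine TT_ind (fun F => F η = ∑ A : ι → Fin M, F (ext0 A fun a l => η a (A a, l)))
    (fun β => ?_) (by simp) (fun F G k1 k2 => ?_) (fun z F k => ?_) hF
  · simp only [mono_ext0, Finset.sum_ite_eq, Finset.mem_univ, if_true]
    rfl
  · simp only [Pi.add_apply, Finset.sum_add_distrib, ← k1, ← k2]
  · simp only [Pi.smul_apply, smul_eq_mul, ← Finset.mul_sum, ← k]

theorem kill_limit {O : I → Multiset (Fin M × ℂ)} (h0 : ∀ i, ∀ γ ∈ O i, γ.2 ≠ 0)
    (h : ∀ A : ι → Fin M, Kill Finset.univ (CylP w O A)) :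
    Kill (Finset.univ : Finset ι) (CylM (vec w 0) O) := by
  intro F hF h1
  funext η
  rw [TT_blocks hF]
  refine Finset.sum_eq_zero fun A _ => congrFun (h A _ (TT_ext0 A hF) ?_) _
  rintro θ ⟨i, e, γ, h2, h3⟩
  refine h1 _ ⟨i, e, γ, h2, fun a ha => funext fun α => ?_⟩
  rw [vec_zero (h0 i _ (h2 ▸ Multiset.mem_map_of_mem γ ha)), ext0, (h3 a ha).1, (h3 a ha).2]
  rfl

omit [Fintype ι] [DecidableEq ι] in
theorem CylM_eq (v : Γ → L → ℂ) (O : I → Multiset Γ) : (CylM v O : Set (ι → L → ℂ)) =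
    Cyl {p : (I × (ι → Γ)) × Finset ι | p.2.val.map p.1.2 = O p.1.1} fun j a => v (j.2 a) := by
  ext η
  exact ⟨fun ⟨i, e, γ, h2, h3⟩ => ⟨((i, γ), e), h2, h3⟩,
    fun ⟨p, h2, h3⟩ => ⟨p.1.1, p.2, p.1.2, h2, h3⟩⟩

theorem gen_cylM {κ : Type} [Finite L] (v : (κ → ℂ) → Γ → L → ℂ)
    (hv : ∀ γ β, (fun x => v x γ β) ∈ PF κ) {O : I → Multiset Γ} {x₀ : κ → ℂ}
    (h : Kill (Finset.univ : Finset ι) (CylM (v x₀) O)) :
    ∀ᶠ x in gen κ, Kill (Finset.univ : Finset ι) (CylM (v x) O) := by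
  rw [CylM_eq] at h
  filter_upwards [gen_cyl Finset.univ _ (fun x (j : I × (ι → Γ)) a => v x (j.2 a))
    (fun j a β => hv _ β) h] with x hx
  rwa [CylM_eq]

theorem vec_PF (γ : Fin M × ℂ) (β : Fin M × Fin w) :
    (fun x : Unit → ℂ => vec w (x ()) γ β) ∈ PF Unit := by
  unfold vec
  exact PF_mul (PF_pow (PF_coord ()) _) (PF_const _)

theorem kill_deform {O : I → Multiset (Fin M × ℂ)}
    (h : Kill (Finset.univ : Finset ι) (CylM (vec w 0) O)) :
    ∃ t : ℂ, t ≠ 0 ∧ Kill (Finset.univ : Finset ι) (CylM (vec w t) O) := by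
  have h2 := gen_cylM (κ := Unit) (fun x => vec w (x ())) vec_PF (x₀ := fun _ => 0) h
  obtain ⟨x, h3, h4⟩ := ((gen_ne (PF_coord ()) (x₀ := fun _ => 1) one_ne_zero).and h2).exists
  exact ⟨x (), h3, h4⟩

theorem kill_blocks {O : I → Multiset (Fin M × ℂ)} (h0 : ∀ i, ∀ γ ∈ O i, γ.2 ≠ 0)
    (h : ∀ A : ι → Fin M, Kill Finset.univ (CylP w O A)) :
    ∃ H : I → Multiset ℂ, (∀ i, (H i).card = (O i).card) ∧
      Kill (Finset.univ : Finset ι) (CylM (rnc (ex (M := M) (w := w))) H) := by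
  obtain ⟨t, ht, h1⟩ := kill_deform (kill_limit h0 h)
  refine ⟨fun i => (O i).map fun γ => γ.2 * t ^ (-(2 * (γ.1 : ℕ) : ℤ)),
    fun i => Multiset.card_map _ _, fun G hG h2 => funext fun η => ?_⟩
  have h3 := h1 _ (TT_col (fun α => t ^ (-LL w α.1 (ex α))) hG) (by
    rintro θ ⟨i, e, γ, h3, h4⟩
    choose z hz using fun a => vec_scale (w := w) ht (γ a)
    have h5 := TT_scale hG (fun a => if a ∈ e then z a else 1) fun a => if a ∈ e then
      rnc ex ((γ a).2 * t ^ (-(2 * ((γ a).1 : ℕ) : ℤ))) else fun α => θ a α * t ^ (-LL w α.1 (ex α))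
    rw [h2 _ ⟨i, e, fun a => (γ a).2 * t ^ (-(2 * ((γ a).1 : ℕ) : ℤ)), by
      simp only [← h3, Multiset.map_map]; rfl, fun a ha => if_pos ha⟩, mul_zero] at h5
    rw [← h5]
    congr 1
    funext a α
    by_cases ha : a ∈ e
    · rw [if_pos ha, if_pos ha, h4 a ha, hz]
    · rw [if_neg ha, if_neg ha, one_mul])
  have h4 := congrFun h3 fun a α => η a α * t ^ LL w α.1 (ex α)
  simpa [mul_assoc, zpow_ne_zero _ ht] using h4

end Pool.Agent.P.MP_c64be1_ag.Sh
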