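import Pool.Agent.P.MP_c64be1_ag.Sh.Pat
import Pool.Agent.P.MP_c64be1_ag.Asy.Dim

/-! Projective space as a symmetric power of the projective line. -/

namespace Pool.Agent.P.MP_c64be1_ag.Sh

open MvPolynomial Filter Function

variable {σ κ : Type}

/-- The linear form with given coefficients. -/
noncomputable def linF (σ : Type) [Fintype σ] : (σ → ℂ) →ₗ[ℂ] MvPolynomial σ ℂ :=
  Fintype.linearCombination ℂ X

theorem linF_apply [Fintype σ] (v : σ → ℂ) : linF σ v = ∑ a, C (v a) * X a := by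
  simp only [linF, Fintype.linearCombination_apply, smul_eq_C_mul]

theorem range_linF [Fintype σ] : LinearMap.range (linF σ) = homogeneousSubmodule σ ℂ 1 := by
  rw [linF, Fintype.range_linearCombination, homogeneousSubmodule_one_eq_span_X]

theorem linF_mem [Fintype σ] (v : σ → ℂ) : linF σ v ∈ homogeneousSubmodule σ ℂ 1 :=
  range_linF (σ := σ) ▸ LinearMap.mem_range_self _ v

theorem PV_linF [Fintype σ] {v : (κ → ℂ) → σ → ℂ} (hv : ∀ a, (fun x => v x a) ∈ PF κ) :
    (fun x => linF σ (v x)) ∈ PV κ σ := by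
  simp only [linF_apply]
  exact PV_lin hv

theorem PF_dual (ψ : MvPolynomial σ ℂ →ₗ[ℂ] ℂ) {F : (κ → ℂ) → MvPolynomial σ ℂ}
    (hF : F ∈ PV κ σ) : (fun x => ψ (F x)) ∈ PF κ := by
  obtain ⟨G, hG⟩ := hF
  refine ⟨∑ m ∈ G.support, coeff m G * C (ψ (monomial m 1)), fun x => ?_⟩
  simp only [hG]
  conv_lhs => rw [G.as_sum]
  simp only [map_sum, map_monomial, map_mul, eval_C]
  refine Finset.sum_congr rfl fun m _ => ?_
  rw [← smul_eq_mul, ← map_smul, smul_monomial, smul_eq_mul, mul_one]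

theorem exists_tuple {α : Type} {N : ℕ} (s : Multiset α) (h : s.card = N) :
    ∃ t : Fin N → α, Finset.univ.val.map t = s := by
  obtain ⟨l, rfl⟩ := Quot.exists_rep s
  obtain rfl : l.length = N := h
  exact ⟨l.get, by rw [Fin.univ_val_map, List.ofFn_get]; rfl⟩

/-- The linear form whose coefficients are those of a polynomial in one variable. -/
noncomputable def Ph (N : ℕ) : Polynomial ℂ →ₗ[ℂ] MvPolynomial (Fin (N + 1)) ℂ :=
  linF _ ∘ₗ LinearMap.pi fun i : Fin (N + 1) => Polynomial.lcoeff ℂ i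

/-- The space of divisors that contain `h`. -/
noncomputable def UU (N : ℕ) (h : Multiset ℂ) : Submodule ℂ (MvPolynomial (Fin (N + 1)) ℂ) :=
  (Polynomial.degreeLT ℂ (N + 1 - h.card)).map
    (Ph N ∘ₗ LinearMap.mulLeft ℂ (h.map fun z => Polynomial.X - Polynomial.C z).prod)

theorem UU_le (N : ℕ) (h : Multiset ℂ) : UU N h ≤ homogeneousSubmodule _ ℂ 1 := by
  rintro _ ⟨p, -, rfl⟩
  exact linF_mem _

theorem finrank_UU (N : ℕ) (h : Multiset ℂ) : Module.finrank ℂ (UU N h) ≤ N + 1 - h.card := by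
  have h1 := Polynomial.degreeLTEquiv ℂ (N + 1 - h.card)
  have := h1.symm.finiteDimensional
  refine (Submodule.finrank_map_le _ _).trans (h1.finrank_eq.trans ?_).le
  simp

/-- The linear form of the divisor with the points `t`. -/
noncomputable def ell {N : ℕ} (t : Fin N → ℂ) : MvPolynomial (Fin (N + 1)) ℂ :=
  Ph N (∏ j, (Polynomial.X - Polynomial.C (t j)))

theorem ell_mem {N : ℕ} (t : Fin N → ℂ) (e : Finset (Fin N)) :
    ell t ∈ UU N (e.val.map t) := by
  refine ⟨∏ j ∈ eᶜ, (Polynomial.X - Polynomial.C (t j)), ?_, ?_⟩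
  · have h1 := e.card_le_univ
    rw [SetLike.mem_coe, Polynomial.mem_degreeLT, Polynomial.degree_prod]
    simp only [Polynomial.degree_X_sub_C, Finset.sum_const, Finset.card_compl, Fintype.card_fin,
      Multiset.card_map, Finset.card_val, nsmul_eq_mul, mul_one, Nat.cast_lt] at h1 ⊢
    omega
  · rw [ell, ← Finset.prod_mul_prod_compl e, Multiset.map_map]
    rfl

theorem ell_eq {N : ℕ} : ∃ r : Finset (Fin N) → MvPolynomial (Fin (N + 1)) ℂ,
    ∀ t : Fin N → ℂ, ell t = ∑ S, (∏ j ∈ S, t j) • r S := by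
  refine ⟨fun S => Ph N ((-1) ^ S.card * Polynomial.X ^ Sᶜ.card), fun t => ?_⟩
  simp only [ell, sub_eq_neg_add, Fintype.prod_add, map_sum, ← map_smul, Finset.prod_neg,
    Finset.prod_const, Polynomial.smul_eq_C_mul, map_prod, mul_left_comm, mul_assoc]

theorem exists_lift {N k : ℕ} {L : Type} {ex : L → ℕ} (hs : ∀ a ≤ k, ∃ β, ex β = a)
    (ψ : MvPolynomial (Fin (N + 1)) ℂ →ₗ[ℂ] ℂ) : ∃ F ∈ TT L (Finset.univ : Finset (Fin N)),
      ∀ t : Fin N → ℂ, F (fun j => rnc ex (t j)) = ψ (ell t ^ k) := by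
  obtain ⟨r, hr⟩ := ell_eq (N := N)
  choose β hβ using fun (p : Fin k → Finset (Fin N)) (j : Fin N) =>
    hs (Finset.univ.filter fun l => j ∈ p l).card ((Finset.card_le_univ _).trans (by simp))
  refine ⟨∑ p : Fin k → Finset (Fin N), ψ (∏ l, r (p l)) • mono Finset.univ (β p),
    Submodule.sum_mem _ fun p _ => Submodule.smul_mem _ _ (mono_mem _ _), fun t => ?_⟩
  rw [hr, Fintype.sum_pow, map_sum, Finset.sum_apply]
  refine Finset.sum_congr rfl fun p _ => ?_
  rw [Finset.prod_smul, map_smul, Pi.smul_apply, smul_eq_mul, smul_eq_mul, mul_comm]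
  congr 1
  simp only [mono, rnc, hβ, ← Finset.prod_const]
  exact Finset.prod_comm' fun j l => by simp

theorem dual_zero {N k : ℕ} (ψ : MvPolynomial (Fin (N + 1)) ℂ →ₗ[ℂ] ℂ)
    (h : ∀ t : Fin N → ℂ, ψ (ell t ^ k) = 0) :
    homogeneousSubmodule (Fin (N + 1)) ℂ 1 ^ k ≤ LinearMap.ker ψ := by
  refine Asy.polar _ _ _ fun p hp => ?_
  obtain ⟨v, rfl⟩ : p ∈ LinearMap.range (linF _) := range_linF (σ := Fin (N + 1)) ▸ hp
  refine eq_zero_of_gen (PF_dual ψ (pow_mem (PV_linF PF_coord) k)) ?_ v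
  filter_upwards [gen_ne (PF_coord (Fin.last N)) (x₀ := fun _ => 1) one_ne_zero] with x hx
  obtain ⟨p, hp⟩ := (Polynomial.degreeLTEquiv ℂ (N + 1)).surjective x
  have h1 : ∀ i : Fin (N + 1), p.1.coeff i = x i := fun i => congrFun hp i
  have h2 : p.1.natDegree = N := Polynomial.natDegree_eq_of_le_of_coeff_ne_zero
    (Polynomial.natDegree_le_of_degree_le (Polynomial.mem_degreeLE.1
      (Polynomial.degreeLT_succ_eq_degreeLE (R := ℂ) ▸ p.2))) (by rwa [← h1] at hx)
  obtain ⟨t, ht⟩ := exists_tuple p.1.roots (IsAlgClosed.card_roots_eq_natDegree.trans h2)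
  have h3 := Polynomial.C_leadingCoeff_mul_prod_multiset_X_sub_C
    (IsAlgClosed.card_roots_eq_natDegree (p := p.1))
  rw [← ht, Multiset.map_map, ← Polynomial.smul_eq_C_mul] at h3
  have h4 : linF _ x = p.1.leadingCoeff • ell t := by
    rw [ell, ← map_smul, ← funext h1]
    exact congrArg (Ph N) h3.symm
  rw [Pi.pow_apply, h4, smul_pow, map_smul, h, smul_zero]

/-- A family of divisors that kills all multilinear functions gives subspaces whose powers span
all forms. -/
theorem fill_of_kill {N k W : ℕ} {L I : Type} [Fintype L] {ex : L → ℕ} (hex : Injective ex)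
    (hW : ∀ β, ex β < W) (hs : ∀ a ≤ k, ∃ β, ex β = a) {H : I → Multiset ℂ}
    (h : Kill (Finset.univ : Finset (Fin N)) (CylM (rnc ex) H)) :
    homogeneousSubmodule (Fin (N + 1)) ℂ 1 ^ k ≤ ⨆ i, UU N (H i) ^ k := by
  intro G hG
  by_contra hn
  obtain ⟨ψ, h1, h2⟩ := Submodule.exists_dual_map_eq_bot_of_notMem hn inferInstance
  obtain ⟨F, hF, h3⟩ := exists_lift hs ψ
  have h4 := h F hF (by
    rintro η ⟨i, e, γ, h4, h5⟩
    refine kill_grid hex hW (q := fun i : Fin W => ((i : ℕ) : ℂ))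
      (fun i i' h => Fin.ext (Nat.cast_injective h)) hF eᶜ (Finset.subset_univ _) η
      fun θ k1 k2 => ?_
    have k3 : ∀ j, ∃ z, θ j = rnc ex z ∧ (j ∈ e → z = γ j) := fun j => by
      by_cases hj : j ∈ e
      · exact ⟨γ j, (k1 j (by simpa)).trans (h5 j hj), fun _ => rfl⟩
      · obtain ⟨i, hi⟩ := k2 j (by simpa)
        exact ⟨_, hi, fun h => absurd h hj⟩
    choose t k4 k5 using k3
    have k6 := ell_mem t e
    rw [Multiset.map_congr rfl k5, h4] at k6
    rw [funext k4, h3, ← Submodule.mem_bot ℂ, ← h2]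
    exact Submodule.mem_map_of_mem (Submodule.mem_iSup_of_mem i (Submodule.pow_mem_pow _ k6 k)))
  exact h1 (dual_zero ψ (fun t => by rw [← h3, h4]; rfl) hG)

theorem ex_inj {M w : ℕ} : Injective (ex (M := M) (w := w)) := fun a b h =>
  finProdFinEquiv.injective (Fin.ext (by
    simp only [finProdFinEquiv_apply_val, ex] at h ⊢
    linarith))

theorem ex_lt {M w : ℕ} (a : Fin M × Fin w) : ex a < M * w := by
  have h := (finProdFinEquiv a).2
  simp only [finProdFinEquiv_apply_val, ex] at h ⊢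
  linarith

theorem ex_surj {M w k : ℕ} (hk : k < M * w) (a : ℕ) (ha : a ≤ k) :
    ∃ β : Fin M × Fin w, ex β = a := by
  obtain ⟨β, h⟩ := finProdFinEquiv.surjective (⟨a, ha.trans_lt hk⟩ : Fin (M * w))
  have h1 := congrArg Fin.val h
  simp only [finProdFinEquiv_apply_val] at h1
  exact ⟨β, by rw [ex]; linarith⟩

end Pool.Agent.P.MP_c64be1_ag.Sh
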