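import Pool.Agent.P.MP_c64be1_ag.Sh.Tens

/-! Splitting the basis of one tensor factor among the edges through it. -/

namespace Pool.Agent.P.MP_c64be1_ag.Sh

open Filter Function

/-- The number of extra objects with an edge of size `d` that is needed on `m` vertices. -/
def KK (u : ℕ → ℕ) (m d : ℕ) : ℕ := ∏ i ∈ Finset.range d, u (m - i)

theorem KK_succ (u : ℕ → ℕ) (m d : ℕ) : KK u (m + 1) (d + 1) = u (m + 1) * KK u m d := by
  rw [KK, Finset.prod_range_succ', mul_comm]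
  simp [KK]

theorem exists_chunks {J : Type} (S : Finset J) {a K : ℕ} (h : a * K ≤ S.card) :
    ∃ T : Fin a → Finset J, (∀ i, T i ⊆ S ∧ K ≤ (T i).card) ∧
      ∀ i i', i ≠ i' → Disjoint (T i) (T i') := by
  classical
  obtain ⟨φ⟩ : Nonempty (Fin a × Fin K ↪ S) := Function.Embedding.nonempty_of_card_le (by simpa)
  refine ⟨fun i => Finset.univ.image fun l => (φ (i, l)).1, fun i => ⟨fun j hj => ?_, ?_⟩,
    fun i i' hi => Finset.disjoint_left.2 fun j h1 h2 => ?_⟩
  · obtain ⟨l, -, rfl⟩ := Finset.mem_image.1 hj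
    exact (φ (i, l)).2
  · rw [Finset.card_image_of_injective _ fun l l' hl =>
      (Prod.ext_iff.1 (φ.injective (Subtype.ext hl))).2]
    simp
  · obtain ⟨l, -, rfl⟩ := Finset.mem_image.1 h1
    obtain ⟨l', -, h3⟩ := Finset.mem_image.1 h2
    exact hi (Prod.ext_iff.1 (φ.injective (Subtype.ext h3))).1.symm

variable {J ι : Type} [DecidableEq ι]

/-- All edges of size `c` inside `A`, and one extra edge `f`. -/
def Sy (Jm : Finset ι → Finset J) (c : ℕ) (A : Finset ι) (S : Finset J) (f : Finset ι) :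
    Set (J × Finset ι) :=
  {p | (p.2 ⊆ A ∧ p.2.card = c ∧ p.1 ∈ Jm p.2) ∨ (p.1 ∈ S ∧ p.2 = f)}

/-- Points on the rational normal curve. -/
def pt (w : ℕ) (x : J × ι → ℂ) : J → ι → Fin w → ℂ := fun j a => rnc Fin.val (x (j, a))

omit [DecidableEq ι] in
theorem pt_PF (w : ℕ) (j : J) (a : ι) (β : Fin w) :
    (fun x : J × ι → ℂ => pt w x j a β) ∈ PF (J × ι) := PF_pow (PF_coord _) _

/-- The groups of objects attached to the basis vectors of the factor `v`. -/
theorem exists_groups {w c n m d : ℕ} (hc : 1 ≤ c) {u : ℕ → ℕ} {g : ℕ}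
    (hu : w ≤ u (m + 1) + m.choose (c - 1) * g) (hg : g * KK u m (c - 1) ≤ n)
    {Jm : Finset ι → Finset J} (hJ : ∀ e e', e ≠ e' → Disjoint (Jm e) (Jm e'))
    {A f : Finset ι} {v : ι} (hv : v ∉ A) (hA : A.card = m) (hf : f ⊆ A) (hd : f.card = d)
    (hn : ∀ e ⊆ insert v A, e.card = c → n ≤ (Jm e).card) {S : Finset J}
    (hS : ∀ e ⊆ insert v A, Disjoint S (Jm e)) (hK : KK u (m + 1) (d + 1) ≤ S.card) :
    ∃ (T : Fin w → Finset J) (f' : Fin w → Finset ι), (∀ i i', i ≠ i' → Disjoint (T i) (T i')) ∧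
      ∀ i, f' i ⊆ A ∧ (∀ e ⊆ A, Disjoint (T i) (Jm e)) ∧ KK u m (f' i).card ≤ (T i).card ∧
        ∀ j ∈ T i, (j, insert v (f' i)) ∈ Sy Jm c (insert v A) S (insert v f) := by
  rw [KK_succ] at hK
  obtain ⟨T₀, k1, k2⟩ := exists_chunks S hK
  have h1 : ∀ e : A.powersetCard (c - 1), e.1 ⊆ A ∧ e.1.card = c - 1 ∧
      (insert v e.1).card = c := fun e => by
    obtain ⟨h2, h3⟩ := Finset.mem_powersetCard.1 e.2
    refine ⟨h2, h3, ?_⟩
    rw [Finset.card_insert_of_notMem fun h => hv (h2 h), h3]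
    omega
  choose T₁ k3 k4 using fun e : A.powersetCard (c - 1) => exists_chunks (Jm (insert v e.1))
    (hg.trans (hn _ (Finset.insert_subset_insert v (h1 e).1) (h1 e).2.2))
  obtain ⟨φ⟩ : Nonempty (Fin w ↪ Fin (u (m + 1)) ⊕ (A.powersetCard (c - 1) × Fin g)) :=
    Function.Embedding.nonempty_of_card_le (by simpa [hA])
  let T : Fin (u (m + 1)) ⊕ (A.powersetCard (c - 1) × Fin g) → Finset J :=
    Sum.elim T₀ fun p => T₁ p.1 p.2
  let f' : Fin (u (m + 1)) ⊕ (A.powersetCard (c - 1) × Fin g) → Finset ι :=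
    Sum.elim (fun _ => f) fun p => p.1.1
  have h2 : ∀ i (p : A.powersetCard (c - 1) × Fin g), Disjoint (T₀ i) (T₁ p.1 p.2) := fun i p =>
    (hS _ (Finset.insert_subset_insert v (h1 p.1).1)).mono (k1 i).1 (k3 p.1 p.2).1
  have h3 : ∀ s s', s ≠ s' → Disjoint (T s) (T s') := by
    rintro (i | p) (i' | p') hs
    · exact k2 i i' fun h => hs (congrArg _ h)
    · exact h2 i p'
    · exact (h2 i' p).symm
    · by_cases he : p.1 = p'.1
      · obtain ⟨e, l⟩ := p
        obtain ⟨e', l'⟩ := p'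
        obtain rfl : e = e' := he
        exact k4 e l l' fun h => hs (by rw [h])
      · refine (hJ _ _ fun h => he (Subtype.ext ?_)).mono (k3 p.1 p.2).1 (k3 p'.1 p'.2).1
        rw [← Finset.erase_insert fun h => hv ((h1 p.1).1 h), h,
          Finset.erase_insert fun h => hv ((h1 p'.1).1 h)]
  have h4 : ∀ s, f' s ⊆ A ∧ (∀ e ⊆ A, Disjoint (T s) (Jm e)) ∧ KK u m (f' s).card ≤ (T s).card ∧
      ∀ j ∈ T s, (j, insert v (f' s)) ∈ Sy Jm c (insert v A) S (insert v f) := by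
    rintro (i | p)
    · refine ⟨hf, fun e he => (hS e (he.trans (Finset.subset_insert v A))).mono_left (k1 i).1,
        ?_, fun j hj => Or.inr ⟨(k1 i).1 hj, rfl⟩⟩
      change KK u m f.card ≤ (T₀ i).card
      rw [hd]
      exact (k1 i).2
    · refine ⟨(h1 p.1).1, fun e he => (hJ _ _ fun h => hv (he ?_)).mono_left (k3 p.1 p.2).1,
        ?_, fun j hj => Or.inl
          ⟨Finset.insert_subset_insert v (h1 p.1).1, (h1 p.1).2.2, (k3 p.1 p.2).1 hj⟩⟩
      · rw [← h]
        exact Finset.mem_insert_self v _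
      · change KK u m p.1.1.card ≤ (T₁ p.1 p.2).card
        rw [(h1 p.1).2.1]
        exact (k3 p.1 p.2).2
  exact ⟨fun i => T (φ i), fun i => f' (φ i), fun i i' hi => h3 _ _ fun h => hi (φ.injective h),
    fun i => h4 (φ i)⟩

theorem split [Finite ι] {w c n N : ℕ} (hc : 1 ≤ c) {u g : ℕ → ℕ}
    (hu : ∀ m < N, w ≤ u (m + 1) + m.choose (c - 1) * g (m + 1))
    (hg : ∀ m < N, g (m + 1) * KK u m (c - 1) ≤ n)
    {Jm : Finset ι → Finset J} (hJ : ∀ e e', e ≠ e' → Disjoint (Jm e) (Jm e')) (m : ℕ) :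
    m ≤ N → ∀ A : Finset ι, A.card = m → (∀ e ⊆ A, e.card = c → n ≤ (Jm e).card) →
      ∀ f ⊆ A, ∀ S : Finset J, (∀ e ⊆ A, Disjoint S (Jm e)) → KK u m f.card ≤ S.card →
        ∃ x : J × ι → ℂ, Kill A (Cyl (Sy Jm c A S f) (pt w x)) := by
  have h0 : ∀ m (A : Finset ι) (S : Finset J), KK u m (∅ : Finset ι).card ≤ S.card →
      ∃ x : J × ι → ℂ, Kill A (Cyl (Sy Jm c A S ∅) (pt w x)) := by
    intro m A S hS
    obtain ⟨j, hj⟩ : S.Nonempty := Finset.card_pos.1 hS
    exact ⟨0, fun F _ h => funext fun η => h η ⟨(j, ∅), Or.inr ⟨hj, rfl⟩,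
      fun a ha => absurd ha (Finset.notMem_empty a)⟩⟩
  induction m with
  | zero =>
    intro _ A hA _ f hf S _ hK
    obtain rfl : f = ∅ := Finset.subset_empty.1 (Finset.card_eq_zero.1 hA ▸ hf)
    exact h0 _ A S hK
  | succ m ih =>
    intro hm A hA hn f hf S hS hK
    rcases f.eq_empty_or_nonempty with rfl | ⟨v, hv⟩
    · exact h0 _ A S hK
    have hAv := Finset.insert_erase (hf hv)
    have hfv := Finset.insert_erase hv
    have hc' : (A.erase v).card = m := by rw [Finset.card_erase_of_mem (hf hv), hA]; rfl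
    obtain ⟨T, f', k1, k2⟩ := exists_groups hc (hu m hm) (hg m hm) hJ (Finset.notMem_erase v A)
      hc' (Finset.erase_subset_erase v hf) rfl (hAv.symm ▸ hn) (hAv.symm ▸ hS)
      (by rwa [Finset.card_erase_add_one hv])
    rw [hAv, hfv] at k2
    have h1 : ∀ i, ∀ᶠ x in gen (J × ι),
        Kill (A.erase v) (Cyl (Sy Jm c (A.erase v) (T i) (f' i)) (pt w x)) := fun i => by
      obtain ⟨x, hx⟩ := ih (by omega) _ hc'
        (fun e he => hn e (he.trans (Finset.erase_subset v A))) (f' i) (k2 i).1 (T i)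
        (k2 i).2.1 (k2 i).2.2.1
      exact gen_cyl _ _ _ (pt_PF w) hx
    obtain ⟨x, hx⟩ := (eventually_all.2 h1).exists
    have h2 : ∀ j, ∃ z : ℂ, ∀ i, j ∈ T i → z = ((i : ℕ) : ℂ) := fun j => by
      by_cases h : ∃ i, j ∈ T i
      · obtain ⟨i, hi⟩ := h
        refine ⟨((i : ℕ) : ℂ), fun i' hi' => ?_⟩
        by_contra hn
        exact Finset.disjoint_left.1 (k1 i i' fun h => hn (by rw [h])) hi hi'
      · exact ⟨0, fun i hi => (h ⟨i, hi⟩).elim⟩
    choose z hz using h2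
    refine ⟨fun p => if p.2 = v then z p.1 else x p, fun F hF h => funext fun η => ?_⟩
    refine kill_one Fin.val_injective (fun β => β.2) (q := fun i : Fin w => ((i : ℕ) : ℂ))
      (fun i i' h => Fin.ext (Nat.cast_injective h)) (hf hv) hF fun i => ?_
    refine congrFun (hx i _ (TT_sub (hf hv) _ hF) ?_) η
    rintro θ ⟨⟨j, e⟩, h3 | ⟨h3, h4⟩, h5⟩
    · refine h _ ⟨(j, e), Or.inl ⟨h3.1.trans (Finset.erase_subset v A), h3.2⟩, fun a ha => ?_⟩
      have h6 : a ≠ v := Finset.ne_of_mem_erase (h3.1 ha)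
      rw [update_of_ne h6, h5 a ha]
      simp only [pt, if_neg h6]
    · obtain rfl : e = f' i := h4
      refine h _ ⟨_, (k2 i).2.2.2 j h3, fun a ha => ?_⟩
      rcases Finset.mem_insert.1 ha with rfl | ha
      · rw [update_self]
        simp only [pt, if_true, hz j i h3]
      · have h6 : a ≠ v := Finset.ne_of_mem_erase ((k2 i).1 ha)
        rw [update_of_ne h6, h5 a ha]
        simp only [pt, if_neg h6]

end Pool.Agent.P.MP_c64be1_ag.Sh
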