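import Pool.Agent.P.MP_c64be1_ag.Sh.Poly
import Pool.Agent.P.MP_c64be1_ag.Sh.Split

/-! The choice of the numerical parameters. -/

namespace Pool.Agent.P.MP_c64be1_ag.Sh

open Filter Topology Finset
open scoped Nat

/-- The sequence `f` grows like `a * k ^ d`. -/
def Asym (f : ℕ → ℕ) (d : ℕ) (a : ℝ) : Prop :=
  Tendsto (fun k : ℕ => (f k : ℝ) / (k : ℝ) ^ d) atTop (𝓝 a)

variable {f g : ℕ → ℕ} {d e : ℕ} {a b : ℝ}

theorem Asym.mul (hf : Asym f d a) (hg : Asym g e b) :
    Asym (fun k => f k * g k) (d + e) (a * b) := by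
  refine (Tendsto.mul hf hg).congr fun k => ?_
  rw [Nat.cast_mul, pow_add, mul_div_mul_comm]

theorem Asym.add (hf : Asym f d a) (hg : Asym g d b) : Asym (fun k => f k + g k) d (a + b) := by
  refine (Tendsto.add hf hg).congr fun k => ?_
  rw [Nat.cast_add, add_div]

theorem asym_const (n : ℕ) : Asym (fun _ => n) 0 n := by
  simpa only [Asym, pow_zero, div_one] using tendsto_const_nhds

theorem asym_const_one (n : ℕ) : Asym (fun _ => n) 1 0 := by
  simpa only [Asym, pow_one] using tendsto_const_div_atTop_nhds_zero_nat (n : ℝ)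

theorem asym_id : Asym (fun k => k) 1 1 := by
  refine tendsto_const_nhds.congr' ?_
  filter_upwards [eventually_gt_atTop 0] with k hk
  rw [pow_one, div_self (by positivity)]

theorem Asym.const_mul (hf : Asym f d a) (n : ℕ) : Asym (fun k => n * f k) d (n * a) := by
  simpa only [zero_add] using (asym_const n).mul hf

theorem asym_prod {f : ℕ → ℕ → ℕ} {a : ℕ → ℝ} (h : ∀ i, Asym (f i) 1 (a i)) (d : ℕ) :
    Asym (fun k => ∏ i ∈ range d, f i k) d (∏ i ∈ range d, a i) := by
  induction d with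
  | zero => simpa using asym_const 1
  | succ d ih => simpa only [prod_range_succ] using ih.mul (h d)

theorem Asym.pow (hf : Asym f 1 a) (d : ℕ) : Asym (fun k => f k ^ d) d (a ^ d) := by
  simpa using asym_prod (fun _ => hf) d

theorem Asym.ceil (hf : Asym f 1 a) (hb : 0 ≤ b) : Asym (fun k => ⌈b * f k⌉₊) 1 (b * a) := by
  have h1 := Tendsto.const_mul b hf
  have h2 := h1.add (asym_const_one 1)
  rw [add_zero] at h2
  refine tendsto_of_tendsto_of_tendsto_of_le_of_le h1 h2 (fun k => ?_) fun k => ?_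
  · simp only [← mul_div_assoc]
    exact div_le_div_of_nonneg_right (Nat.le_ceil _) (by positivity)
  · simp only [← mul_div_assoc, ← add_div, Nat.cast_one]
    exact div_le_div_of_nonneg_right (Nat.ceil_lt_add_one (by positivity)).le (by positivity)

theorem Asym.lt (hf : Asym f d a) (h : a < b) : ∀ᶠ k : ℕ in atTop, (f k : ℝ) < b * k ^ d := by
  filter_upwards [hf.eventually (gt_mem_nhds h), eventually_gt_atTop 0] with k h1 h2
  rwa [div_lt_iff₀ (by positivity)] at h1

/-- Ratios of consecutive terms. -/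
noncomputable def th (I : ℕ → ℝ) : ℕ → ℝ
  | 0 => 0
  | j + 1 => I (j + 1) / I j

theorem prod_th {I : ℕ → ℝ} {m : ℕ} (hI : ∀ j < m, 0 < I j) {d : ℕ} (hd : d ≤ m) :
    (∏ i ∈ range d, th I (m - i)) * I (m - d) = I m := by
  induction d with
  | zero => simp
  | succ d ih =>
    obtain ⟨l, rfl⟩ := Nat.exists_eq_add_of_le hd
    rw [prod_range_succ, ← ih (by omega), show d + 1 + l - d = l + 1 by omega,
      Nat.add_sub_cancel_left, th, mul_assoc, div_mul_cancel₀ _ (hI l (by omega)).ne']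

theorem exists_blocks (c e : ℕ) {ε : ℝ} (hε : 0 < ε) :
    ∃ M : ℕ, 0 < M ∧ c ≤ M ∧ ((M ^ e - M.descFactorial e : ℕ) : ℝ) ≤ ε * M ^ e := by
  obtain ⟨M, h1, h2, h3⟩ := ((eventually_gt_atTop 0).and ((eventually_ge_atTop c).and
    ((isEquivalent_descFactorial e).isLittleO.def hε))).exists
  refine ⟨M, h1, h2, ?_⟩
  rw [Nat.cast_sub (Nat.descFactorial_le_pow M e), Nat.cast_pow]
  rw [Real.norm_eq_abs, Real.norm_of_nonneg (by positivity), abs_le] at h3
  have := h3.1
  simp only [Pi.sub_apply] at this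
  linarith

theorem exists_param {c m e : ℕ} (hc : 1 ≤ c) (he : e ≤ m) {I : ℕ → ℝ} {y y' ε : ℝ} (hy : 0 ≤ y)
    (hy' : y < y') (hε : 0 < ε) (hI : ∀ j < m, 0 < I j) (hm : 0 ≤ I m) (he' : 0 < I (m - e))
    (hrec : ∀ j, I (j + 1) = I j - j.choose (c - 1) * (c ! * y * I (j + 1 - c))) :
    ∀ᶠ k : ℕ in atTop, ∃ (M w n : ℕ) (u g : ℕ → ℕ), k < M * w ∧
      (∀ j < m, w ≤ u (j + 1) + j.choose (c - 1) * g (j + 1)) ∧
      (∀ j < m, g (j + 1) * KK u j (c - 1) ≤ n) ∧ ((M.choose c * n : ℕ) : ℝ) ≤ y' * k ^ c ∧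
      ((M.choose e * KK u m e + (M ^ e - M.descFactorial e) * w ^ e : ℕ) : ℝ) ≤
        (I m / I (m - e) / e ! + ε) * k ^ e := by
  obtain ⟨M, h1, h2, h3⟩ := exists_blocks c e (half_pos hε)
  have hM : (0 : ℝ) < M := by exact_mod_cast h1
  have hI' : ∀ j ≤ m, 0 ≤ I j := fun j hj => hj.lt_or_eq.elim (fun h => (hI j h).le) (· ▸ hm)
  let w : ℕ → ℕ := fun k => ⌈(M : ℝ)⁻¹ * (k + 1 : ℕ)⌉₊
  have hw : Asym w 1 (M : ℝ)⁻¹ := by
    simpa only [add_zero, mul_one] using (asym_id.add (asym_const_one 1)).ceil (inv_pos.2 hM).le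
  let θ : ℕ → ℝ := fun j => th I (min j m)
  have hθ : ∀ j, 0 ≤ θ j := fun j => by
    have h4 := min_le_right j m
    simp only [θ]
    generalize min j m = l at h4
    rcases l with _ | l
    · exact le_rfl
    · exact div_nonneg (hI' _ h4) (hI' _ (by omega))
  let γ : ℕ → ℝ := fun j => c ! * y * I (j - c) / I (j - 1)
  have hγ : ∀ j ≤ m, 0 ≤ γ j := fun j hj =>
    div_nonneg (mul_nonneg (by positivity) (hI' _ (by omega))) (hI' _ (by omega))
  let u : ℕ → ℕ → ℕ := fun k j => ⌈θ j * w k⌉₊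
  have hK : ∀ j ≤ m, ∀ d, Asym (fun k => KK (u k) j d) d
      ((∏ i ∈ range d, th I (j - i)) * (M : ℝ)⁻¹ ^ d) := fun j hj d => by
    have h4 := asym_prod (fun i => hw.ceil (hθ (j - i))) d
    rwa [prod_mul_distrib, prod_const, card_range, prod_congr rfl fun i _ =>
      show θ (j - i) = th I (j - i) by simp only [θ, min_eq_left ((Nat.sub_le j i).trans hj)]] at h4
  have h4 : ∀ j < m, ∀ᶠ k : ℕ in atTop,
      ((⌈γ (j + 1) * w k⌉₊ * KK (u k) j (c - 1) * M.choose c : ℕ) : ℝ) < y' * k ^ c := by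
    intro j hj
    have k1 := ((hw.ceil (hγ (j + 1) hj)).mul (hK j hj.le (c - 1))).mul (asym_const (M.choose c))
    rw [show 1 + (c - 1) + 0 = c by omega] at k1
    refine k1.lt (lt_of_le_of_lt ?_ hy')
    have k2 : γ (j + 1) * ∏ i ∈ range (c - 1), th I (j - i) ≤ c ! * y := by
      by_cases k2 : c - 1 ≤ j
      · have k3 := prod_th (fun i hi => hI i (hi.trans hj)) k2
        simp only [γ]
        rw [Nat.add_sub_cancel, div_mul_eq_mul_div, div_le_iff₀ (hI j hj), ← k3,
          show j + 1 - c = j - (c - 1) by omega]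
        exact le_of_eq (by ring)
      · rw [prod_eq_zero (mem_range.2 (not_le.1 k2)) (by rw [Nat.sub_self, th]), mul_zero]
        positivity
    have k3 : (M.choose c : ℝ) ≤ M ^ c / c ! := Nat.choose_le_pow_div c M
    have k4 : (M : ℝ)⁻¹ * (M : ℝ)⁻¹ ^ (c - 1) = (M : ℝ)⁻¹ ^ c := by
      rw [← pow_succ', Nat.sub_add_cancel hc]
    rw [mul_mul_mul_comm, k4]
    refine (mul_le_mul (mul_le_mul_of_nonneg_right k2 (by positivity)) k3 (by positivity)
      (by positivity)).trans (le_of_eq ?_)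
    rw [inv_pow]
    field_simp
  have h5 := (((hK m le_rfl e).const_mul (M.choose e)).add
    ((hw.pow e).const_mul (M ^ e - M.descFactorial e))).lt (b := I m / I (m - e) / e ! + ε) (by
      have k3 : (M.choose e : ℝ) ≤ M ^ e / e ! := Nat.choose_le_pow_div e M
      rw [← eq_div_of_mul_eq he'.ne' (prod_th hI he)]
      have k4 : 0 ≤ ∏ i ∈ range e, th I (m - i) := by
        rw [eq_div_of_mul_eq he'.ne' (prod_th hI he)]
        exact div_nonneg hm he'.le
      refine (add_le_add (mul_le_mul_of_nonneg_right k3 (by positivity))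
        (mul_le_mul_of_nonneg_right h3 (by positivity))).trans_lt ?_
      rw [inv_pow, mul_inv_cancel_right₀ (by positivity)]
      refine add_lt_add_of_le_of_lt (le_of_eq ?_) (half_lt_self hε)
      field_simp)
  filter_upwards [(eventually_all_finset (range m)).2 fun j hj => h4 j (mem_range.1 hj), h5]
    with k k1 k2
  have k3 : 0 ≤ y' * k ^ c := mul_nonneg (hy.trans hy'.le) (by positivity)
  refine ⟨M, w k, ⌊y' * k ^ c⌋₊ / M.choose c, u k, fun j => ⌈γ j * w k⌉₊, ?_, fun j hj => ?_,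
    fun j hj => ?_, ?_, k2.le⟩
  · have k4 := Nat.le_ceil ((M : ℝ)⁻¹ * (k + 1 : ℕ))
    rw [inv_mul_le_iff₀ hM] at k4
    exact_mod_cast k4
  · have k4 : θ (j + 1) + j.choose (c - 1) * γ (j + 1) = 1 := by
      simp only [θ, γ]
      rw [min_eq_left hj, th, hrec, Nat.add_sub_cancel]
      have := (hI j hj).ne'
      field_simp
      ring
    have k5 := add_le_add (Nat.le_ceil (θ (j + 1) * w k)) (mul_le_mul_of_nonneg_left
      (Nat.le_ceil (γ (j + 1) * w k)) (Nat.cast_nonneg (j.choose (c - 1))))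
    rw [← mul_assoc, ← add_mul, k4, one_mul] at k5
    exact_mod_cast k5
  · exact (Nat.le_div_iff_mul_le (Nat.choose_pos h2)).2
      (Nat.le_floor (k1 j (mem_range.2 hj)).le)
  · exact (Nat.cast_le.2 (Nat.mul_div_le _ _)).trans (Nat.floor_le k3)

theorem II_rec {c : ℕ} (hc : 1 ≤ c) (y : ℝ) (j : ℕ) : ((j + 1)! : ℝ) * PP c (j + 1) y =
    j ! * PP c j y - j.choose (c - 1) * (c ! * y * ((j + 1 - c)! * PP c (j + 1 - c) y)) := by
  rw [Nat.factorial_succ, Nat.cast_mul, Nat.cast_succ, mul_right_comm, PP_rec hc, QQ]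
  obtain ⟨d, rfl⟩ := Nat.exists_eq_add_of_le' hc
  split_ifs with h
  · have h1 := Nat.choose_mul_factorial_mul_factorial (Nat.le_of_succ_le_succ h)
    rw [Nat.add_sub_add_right, Nat.add_sub_cancel, Nat.factorial_succ, ← h1]
    push_cast
    ring
  · rw [Nat.choose_eq_zero_of_lt (by omega)]
    push_cast
    ring

end Pool.Agent.P.MP_c64be1_ag.Sh
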