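import Pool.Agent.P.MP_c64be1_ag.Sh.Step
import Pool.Agent.P.MP_c64be1_ag.Sh.Num

/-! The growth of the generic rank in the degree. -/

namespace Pool.Agent.P.MP_c64be1_ag.Sh

open MvPolynomial Filter Topology Function Module Asy
open scoped Nat

theorem card_noninj (e M : ℕ) : (Finset.univ.filter fun A : Fin e → Fin M => ¬ Injective A).card =
    M ^ e - M.descFactorial e := by
  have h1 := Finset.card_filter_add_card_filter_not (s := Finset.univ)
    fun A : Fin e → Fin M => Injective A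
  rw [← Fintype.card_subtype, Fintype.card_congr (Equiv.subtypeInjectiveEquivEmbedding _ _),
    Fintype.card_embedding_eq] at h1
  simp only [Fintype.card_fin, Finset.card_univ, Fintype.card_fun] at h1
  omega

theorem exists_fill {c m e : ℕ} (hc : 1 ≤ c) (he : e ≤ m) (h2 : 2 ≤ e ∨ e = m) {y y' ε : ℝ}
    (hy : 0 ≤ y) (hy' : y < y') (hε : 0 < ε) (hI : ∀ j < m, 0 < PP c j y) (hm : 0 ≤ PP c m y)
    (he' : 0 < PP c (m - e) y) : ∀ᶠ k : ℕ in atTop, ∃ (I J : Type) (_ : Fintype I) (_ : Fintype J)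
      (H : I ⊕ J → Multiset ℂ), (Fintype.card I : ℝ) ≤ y' * k ^ c ∧ (Fintype.card J : ℝ) ≤
        (m ! * PP c m y / ((m - e)! * PP c (m - e) y) / e ! + ε) * k ^ e ∧
      (∀ i, (H (Sum.inl i)).card = c) ∧ (∀ i, (H (Sum.inr i)).card = e) ∧
      homogeneousSubmodule (Fin (m + 1)) ℂ 1 ^ k ≤ ⨆ i, UU m (H i) ^ k := by
  filter_upwards [exists_param hc he (I := fun j => j ! * PP c j y) hy hy' hε
    (fun j hj => mul_pos (by positivity) (hI j hj)) (by positivity) (by positivity)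
    (II_rec hc y)] with k ⟨M, w, n, u, g, k1, k2, k3, k4, k5⟩
  obtain ⟨H, h3, h4, h5, h6⟩ := exists_family (ι := Fin m) (d := e) (n' := KK u m e) (e₀ := e) hc
    (by simpa using k2) (by simpa using k3) (by simpa) (by simp)
    (Finset.univ.filter fun A : Fin e → Fin M => ¬ Injective A) fun A hA => by
      simp only [Finset.mem_filter, Finset.mem_univ, true_and]
      rcases h2 with h2 | rfl
      · exact exists_noninj h2 (by simpa) hA
      · exact ⟨Embedding.refl _, hA⟩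
  refine ⟨_, _, inferInstance, inferInstance, H, le_of_eq_of_le (congrArg _ ?_) k4,
    le_of_eq_of_le (congrArg _ ?_) k5, h3, ?_, fill_of_kill ex_inj ex_lt (ex_surj k1) h6⟩
  · simp only [Fintype.card_prod, Fintype.card_coe, Finset.card_powersetCard, Finset.card_univ,
      Fintype.card_fin]
  · simp only [Fintype.card_sum, Fintype.card_prod, Fintype.card_coe, Finset.card_powersetCard,
      Finset.card_univ, Fintype.card_fin, card_noninj, Fintype.card_fun]
  · rintro (i | i)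
    · exact h4 i
    · exact h5 i

theorem main_low {c m : ℕ} (hc : 1 ≤ c) {y y' ε : ℝ} (hy : 0 ≤ y) (hy' : y < y') (hε : 0 < ε)
    (hI : ∀ j ≤ m, 0 < PP c j y) : ∀ᶠ k : ℕ in atTop, ∀ s : ℕ, y' * k ^ c ≤ s →
      (NN (m + 1) k : ℝ) ≤ rk (m + 1) (m + 1 - c) k s + (PP c m y + ε) * k ^ m := by
  filter_upwards [exists_fill hc le_rfl (Or.inr rfl) hy hy' hε (fun j hj => hI j hj.le)
    (hI m le_rfl).le (hI _ (Nat.sub_le _ _))] with k ⟨I, J, _, _, H, k1, k2, k3, k4, k5⟩ s hs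
  rw [Nat.sub_self, PP_small hc hc, Nat.factorial_zero, Nat.cast_one, div_one, one_mul, div_one,
    mul_div_cancel_left₀ _ (by positivity)] at k2
  refine le_trans ?_ (add_le_add le_rfl k2)
  exact_mod_cast rk_low k3 k4 (Nat.cast_le.1 (k1.trans hs)) k5

theorem main_top {c m : ℕ} (hc : 2 ≤ c) (hm : c ≤ m) {y y' : ℝ} (hy : 0 ≤ y) (hy' : y < y')
    (hI : ∀ j < m, 0 < PP c j y) (h0 : PP c m y = 0) : ∀ᶠ k : ℕ in atTop, ∀ s : ℕ,
      y' * k ^ c ≤ s → NN (m + 1) k ≤ rk (m + 1) (m + 1 - c) k s := by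
  filter_upwards [exists_fill (by omega) hm (Or.inl hc) hy (left_lt_add_div_two.2 hy')
    (half_pos (sub_pos.2 hy')) hI h0.ge (hI _ (by omega))]
    with k ⟨I, J, _, _, H, k1, k2, k3, k4, k5⟩ s hs
  rw [h0, mul_zero, zero_div, zero_div, zero_add] at k2
  refine rk_top (fun i => Sum.rec k3 k4 i) (Nat.cast_le (α := ℝ).1 ?_) k5
  rw [Fintype.card_sum, Nat.cast_add]
  linarith

theorem main_one {m k s : ℕ} (hm : 1 ≤ m) (hs : k + 1 ≤ s) :
    NN (m + 1) k ≤ rk (m + 1) (m + 1 - 1) k s := by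
  obtain ⟨H, h1, h2⟩ := exists_family_one (w := k + 1) (⟨0, hm⟩ : Fin m)
  exact rk_top h1 (by simpa) (fill_of_kill ex_inj ex_lt (ex_surj (by omega)) h2)

theorem ev_big {c : ℕ} (hc : 1 ≤ c) {δ : ℝ} (hδ : 0 < δ) (A : ℝ) :
    ∀ᶠ k : ℕ in atTop, A < δ * (k : ℝ) ^ c :=
  (((tendsto_pow_atTop (by omega)).comp tendsto_natCast_atTop_atTop).const_mul_atTop
    hδ).eventually_gt_atTop A

/-- Summation of the steps. -/
theorem riem {c m : ℕ} (hc : 1 ≤ c) {P f : ℝ → ℝ} (hP : ∀ t, HasDerivAt P (-f t) t)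
    (hf : Continuous f) {R : ℕ → ℕ → ℝ} (h0 : ∀ k, R k 0 = 0) {y η : ℝ} (hη : 0 < η)
    (h : ∀ t ∈ Set.Icc 0 y, ∃ S ∈ 𝓝 t, ∀ᶠ k : ℕ in atTop, ∀ s : ℕ, (s : ℝ) / k ^ c ∈ S →
      R k (s + 1) ≤ R k s + (f t + η) * k ^ m) : ∀ᶠ k : ℕ in atTop, ∀ s : ℕ, (s : ℝ) / k ^ c ≤ y →
      R k s ≤ (P 0 - P (s / k ^ c) + 2 * η * (s / k ^ c)) * k ^ (m + c) := by
  have h1 := (isCompact_Icc (a := 0) (b := y)).induction_on (p := fun T => ∀ᶠ k : ℕ in atTop,
    ∀ s : ℕ, (s : ℝ) / k ^ c ∈ T → ∀ ξ ∈ Set.Ioo ((s : ℝ) / k ^ c) ((s + 1 : ℕ) / k ^ c),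
      R k (s + 1) ≤ R k s + (f ξ + 2 * η) * k ^ m) (by simp)
    (fun _ _ hT k1 => k1.mono fun k k2 s hs => k2 s (hT hs))
    (fun _ _ k1 k2 => (k1.and k2).mono fun k k3 s hs => hs.elim (k3.1 s) (k3.2 s)) fun t ht => by
      obtain ⟨S, k1, k2⟩ := h t ht
      obtain ⟨δ, k3, k4⟩ := Metric.continuous_iff.1 hf t η hη
      refine ⟨S ∩ Metric.ball t (δ / 2), mem_nhdsWithin_of_mem_nhds
        (inter_mem k1 (Metric.ball_mem_nhds t (half_pos k3))), ?_⟩
      filter_upwards [k2, ev_big hc (half_pos k3) 1, eventually_gt_atTop 0] with k k5 k6 k7 s hs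
        ξ hξ
      refine (k5 s hs.1).trans (add_le_add le_rfl (mul_le_mul_of_nonneg_right ?_ (by positivity)))
      rw [← div_lt_iff₀ (by positivity)] at k6
      have k8 := hs.2
      rw [Nat.cast_succ, add_div] at hξ
      rw [Metric.mem_ball, Real.dist_eq, abs_lt] at k8
      have k9 := k4 ξ (by rw [Real.dist_eq, abs_lt]; constructor <;> linarith [hξ.1, hξ.2])
      rw [Real.dist_eq, abs_lt] at k9
      linarith
  filter_upwards [h1, eventually_gt_atTop 0] with k k1 k2 s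
  have k3 : (0 : ℝ) < k ^ c := by positivity
  induction s with
  | zero => simp [h0]
  | succ s ih =>
    intro hs
    have k4 : (s : ℝ) / k ^ c < (s + 1 : ℕ) / k ^ c := div_lt_div_of_pos_right (by simp) k3
    obtain ⟨ξ, k5, k6⟩ := exists_hasDerivAt_eq_slope P (fun t => -f t) k4
      (fun t _ => (hP t).continuousAt.continuousWithinAt) fun t _ => hP t
    refine (k1 s ⟨by positivity, k4.le.trans hs⟩ ξ k5).trans
      ((add_le_add (ih (k4.le.trans hs)) le_rfl).trans (le_of_eq ?_))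
    rw [← sub_div, Nat.cast_succ, add_sub_cancel_left, neg_eq_iff_eq_neg] at k6
    rw [k6, pow_add, Nat.cast_succ]
    field_simp
    ring

theorem NN_upper (m : ℕ) {η : ℝ} (hη : 0 < η) :
    ∀ᶠ k : ℕ in atTop, (NN (m + 1) k : ℝ) ≤ (1 / m ! + η) * k ^ m := by
  filter_upwards [((asym_id.add (asym_const_one m)).pow m).lt (b := 1 + η * m !)
    (by simp; positivity)] with k hk
  rw [NN, show m + 1 + k - 1 = k + m by omega, Nat.choose_symm_add]
  refine (Nat.choose_le_pow_div m (k + m)).trans ((div_le_iff₀ (by positivity)).2 ?_)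
  rw [← Nat.cast_pow]
  refine hk.le.trans (le_of_eq ?_)
  field_simp

theorem NN_lower (m k : ℕ) : 1 / (m ! : ℝ) * k ^ m ≤ NN (m + 1) k := by
  rw [NN, show m + 1 + k - 1 = k + m by omega, Nat.choose_symm_add]
  refine le_trans ?_ (Nat.pow_le_choose m (k + m))
  rw [one_div_mul_eq_div, show k + m + 1 - m = k + 1 by omega]
  gcongr
  omega

theorem not_fills {c m : ℕ} (hc : 1 ≤ c) (hm : 1 ≤ m) {y : ℝ} (hy : 0 ≤ y)
    (h : ∀ j ≤ m + c, ∀ t ∈ Set.Icc 0 y, 0 < PP c j t) : ∀ᶠ k : ℕ in atTop, ∀ s : ℕ,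
      (s : ℝ) / k ^ c ≤ y → ¬ SecantFills (Fin (m + 1 + c)) k (m + 1) s := by
  obtain ⟨μ, h1, h2⟩ := isCompact_Icc.exists_forall_le' (PP_cont hc (m + c)).continuousOn
    (h _ le_rfl)
  have hη : 0 < μ / (4 * (y + 1)) := by positivity
  have h3 := riem (m := m) hc (P := PP c (m + c)) (f := PP c m) (fun t => by
    simpa only [QQ, if_pos (Nat.le_add_left c m), Nat.add_sub_cancel] using PP_deriv hc (m + c) t)
    (PP_cont hc m) (R := fun k s => rk (m + 1 + c) (m + 1) k s) (fun k => by simp [rk_zero])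
    (y := y) hη fun t ht => by
      have k0 : ∀ k s : ℕ, (rk (m + 1 + c) (m + 1) k (s + 1) : ℝ) + rk (m + 1) (m + 1 - c) k s ≤
        NN (m + 1) k + rk (m + 1 + c) (m + 1) k s := fun k s => by
        exact_mod_cast rk_succ (m + 1) c k s
      rcases ht.1.eq_or_lt with rfl | k1
      · refine ⟨_, univ_mem, (NN_upper m hη).mono fun k hk s _ => ?_⟩
        rw [PP_zero]
        linarith [k0 k s, Nat.cast_nonneg (α := ℝ) (rk (m + 1) (m + 1 - c) k s)]
      · obtain ⟨z, k2, k3⟩ := ((((PP_cont hc m).tendsto t).eventually (gt_mem_nhds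
          (lt_add_of_pos_right _ (half_pos hη)))).filter_mono nhdsWithin_le_nhds |>.and
          (Ioo_mem_nhdsLT k1)).exists
        refine ⟨_, Ioi_mem_nhds (add_div_two_lt_right.2 k3.2), ?_⟩
        filter_upwards [main_low (m := m) hc k3.1.le (left_lt_add_div_two.2 k3.2) (half_pos hη)
          fun j hj => h j (by omega) z ⟨k3.1.le, k3.2.le.trans ht.2⟩, eventually_gt_atTop 0]
          with k k4 k5 s hs
        have k6 := k4 s ((lt_div_iff₀ (by positivity)).1 hs).le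
        have k7 := mul_le_mul_of_nonneg_right k2.le (by positivity : (0 : ℝ) ≤ k ^ m)
        linarith [k0 k s]
  filter_upwards [h3, ev_big hm (half_pos h1) (y * ((m + 1) * (m + 1 + c) : ℕ)),
    eventually_gt_atTop 0] with k k1 k2 k3 s hs hf
  have k4 : (NN (m + 1 + c) k : ℝ) ≤ rk (m + 1 + c) (m + 1) k s +
    s * ((m + 1) * (m + 1 + c) : ℕ) := by exact_mod_cast rk_of_fills hf
  have k5 := NN_lower (m + c) k
  rw [← Nat.add_right_comm, ← PP_zero c] at k5
  have k6 : (0 : ℝ) < k ^ c := by positivity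
  have k7 := h2 _ ⟨by positivity, hs⟩
  have k8 : 2 * (μ / (4 * (y + 1))) * (s / k ^ c) ≤ μ / 2 := by
    refine (mul_le_mul_of_nonneg_left (hs.trans (le_add_of_nonneg_right zero_le_one))
      (by positivity)).trans (le_of_eq ?_)
    field_simp
    ring
  have k9 := (k1 s hs).trans (mul_le_mul_of_nonneg_right (add_le_add (sub_le_sub_left k7 _) k8)
    (by positivity))
  have k10 := mul_le_mul_of_nonneg_right ((div_le_iff₀ k6).1 hs)
    (Nat.cast_nonneg ((m + 1) * (m + 1 + c)))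
  have k11 := mul_lt_mul_of_pos_right k2 k6
  rw [mul_assoc (μ / 2), ← pow_add] at k11
  linarith

theorem exists_fills {n r : ℕ} (h1 : 1 ≤ r) (hr : r ≤ n) (k : ℕ) :
    ∃ s, SecantFills (Fin n) k r s := by
  obtain ⟨q, h2, h3⟩ := pure_filler (homogeneousSubmodule (Fin n) ℂ 1) ⊥ k (Fin (NN n k))
    (by rw [bot_sup_eq, finrank_lin_pow]; simp)
  have h4 : Adm r fun i => ℂ ∙ q i := fun i =>
    ⟨(Submodule.span_singleton_le_iff_mem _ _).2 (h2 i), (finrank_span_one_le _).trans h1⟩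
  have := h4.fd k
  rw [bot_sup_eq] at h3
  refine ⟨_, fills_of_rk hr (le_trans ?_ (le_rk h4 le_rfl k))⟩
  exact (finrank_lin_pow n k).ge.trans (Submodule.finrank_mono h3)

theorem growth {c m : ℕ} (hc : 1 ≤ c) (hm : 1 ≤ m) : ∃ (σ : ℝ) (g : ℕ → ℕ),
    IsLeast {x : ℝ | 0 < x ∧ PP c (m + c) x = 0} σ ∧
    (∀ k, IsLeast {s | SecantFills (Fin (m + 1 + c)) k (m + 1) s} (g k)) ∧
    Tendsto (fun k : ℕ => (g k : ℝ) / (k : ℝ) ^ c) atTop (𝓝 σ) := by
  obtain ⟨σ, h1, h2, h3, h4, h5⟩ := exists_sigma hc (Nat.le_add_left c m)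
  have h6 := fun k => isLeast_csInf (s := {s | SecantFills (Fin (m + 1 + c)) k (m + 1) s})
    (exists_fills (by omega) (by omega) k)
  refine ⟨σ, _, ⟨⟨h1, h2⟩, fun x hx => not_lt.1 fun h => (h3 _ le_rfl x hx.1.le h).ne' hx.2⟩, h6,
    tendsto_order.2 ⟨fun a ha => ?_, fun b hb => ?_⟩⟩
  · filter_upwards [not_fills hc hm (le_max_right a 0) fun j hj t ht =>
      h3 j hj t ht.1 (ht.2.trans_lt (max_lt ha h1))] with k hk
    exact (le_max_left a 0).trans_lt (not_le.1 fun h => hk _ h (h6 k).1)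
  · have h7 : ∀ᶠ k : ℕ in atTop, ∀ s : ℕ, (σ + b) / 2 * k ^ c ≤ s →
        NN (m + c + 1) k ≤ rk (m + c + 1) (m + c + 1 - c) k s := by
      rcases hc.eq_or_lt with rfl | k1
      · filter_upwards [ev_big hc (half_pos (sub_pos.2 hb)) 1] with k hk s hs
        refine main_one (by omega) (Nat.cast_le (α := ℝ).1 ?_)
        rw [pow_one] at hk hs
        push_cast
        nlinarith [h5 rfl, Nat.cast_nonneg (α := ℝ) k]
      · exact main_top k1 (Nat.le_add_left c m) h1.le (left_lt_add_div_two.2 hb) (h4 k1) h2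
    filter_upwards [h7, ev_big hc (half_pos (sub_pos.2 hb)) 1, eventually_gt_atTop 0]
      with k k1 k2 k3
    have k4 := k1 _ (Nat.le_ceil _)
    rw [Nat.add_right_comm, Nat.add_sub_cancel] at k4
    have k5 := Nat.cast_le (α := ℝ).2 ((h6 k).2 (fills_of_rk (by omega) k4))
    have k6 := Nat.ceil_lt_add_one (mul_nonneg (by linarith : 0 ≤ (σ + b) / 2)
      (by positivity : (0 : ℝ) ≤ k ^ c))
    rw [div_lt_iff₀ (by positivity)]
    linarith

end Pool.Agent.P.MP_c64be1_ag.Sh
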