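import Pool.Agent.P.MP_c64be1_ag.Sh.Block

/-! Objects that serve all patterns of blocks. -/

namespace Pool.Agent.P.MP_c64be1_ag.Sh

open Filter Function

variable {ι : Type} [Fintype ι] [DecidableEq ι] {M w : ℕ}

theorem kill_pat_grid {I : Type} {O : I → Multiset (Fin M × ℂ)} {A : ι → Fin M} {e₀ : ℕ}
    (a : Fin e₀ ↪ ι) (h : ∀ β : Fin e₀ → Fin w, ∃ i,
      O i = Finset.univ.val.map fun l => (A (a l), ((β l : ℕ) : ℂ) + 1)) :
    Kill Finset.univ (CylP w O A) := by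
  intro F hF h0
  funext η₀
  refine kill_grid Fin.val_injective (fun β => β.2) (q := fun i : Fin w => ((i : ℕ) : ℂ) + 1)
    (fun i i' h => Fin.ext (Nat.cast_injective (add_right_cancel h))) hF (Finset.univ.map a)
    (Finset.subset_univ _) η₀ fun η _ h1 => h0 η ?_
  choose β hβ using fun l => h1 (a l) (Finset.mem_map_of_mem a (Finset.mem_univ l))
  obtain ⟨i, hi⟩ := h β
  refine ⟨i, Finset.univ.map a, fun j => (A j, extend a (fun l => ((β l : ℕ) : ℂ) + 1) 0 j), ?_,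
    fun j hj => ⟨rfl, ?_⟩⟩
  · rw [hi, Finset.map_val, Multiset.map_map]
    exact Multiset.map_congr rfl fun l _ => by simp only [comp, a.injective.extend_apply]
  · obtain ⟨l, -, rfl⟩ := Finset.mem_map.1 hj
    simp only [a.injective.extend_apply, hβ l]

/-- The objects of a family of block sets. -/
def objs {d n : ℕ} (x : Finset (Fin M) × Fin n → Fin M → ℂ)
    (i : (Finset.univ : Finset (Fin M)).powersetCard d × Fin n) : Multiset (Fin M × ℂ) :=
  i.1.1.val.map fun b => (b, x (i.1.1, i.2) b)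

theorem gen_pat {c n d n' : ℕ} (hc : 1 ≤ c) {u g : ℕ → ℕ}
    (hu : ∀ m < Fintype.card ι, w ≤ u (m + 1) + m.choose (c - 1) * g (m + 1))
    (hg : ∀ m < Fintype.card ι, g (m + 1) * KK u m (c - 1) ≤ n) (hd : d ≤ Fintype.card ι)
    (hK : KK u (Fintype.card ι) d ≤ n') (A : ι ↪ Fin M) :
    ∀ᶠ x in gen (((Finset (Fin M) × Fin n) ⊕ (Finset (Fin M) × Fin n')) × Fin M),
      Kill Finset.univ (CylP w (Sum.elim (objs (d := c) fun j b => x (Sum.inl j, b))
        (objs (d := d) fun j b => x (Sum.inr j, b))) A) := by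
  classical
  obtain ⟨f, -, hf⟩ := Finset.exists_subset_card_eq (s := (Finset.univ : Finset ι)) hd
  let Jm : Finset ι → Finset ((Finset (Fin M) × Fin n) ⊕ (Finset (Fin M) × Fin n')) :=
    fun e => Finset.univ.image fun ν => Sum.inl (e.map A, ν)
  let S : Finset ((Finset (Fin M) × Fin n) ⊕ (Finset (Fin M) × Fin n')) :=
    Finset.univ.image fun ν => Sum.inr (f.map A, ν)
  obtain ⟨y, hy⟩ := split hc hu hg (Jm := Jm) (fun e e' he => Finset.disjoint_left.2
    fun j h1 h2 => by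
      obtain ⟨ν, -, rfl⟩ := Finset.mem_image.1 h1
      obtain ⟨ν', -, h3⟩ := Finset.mem_image.1 h2
      exact he (Finset.map_injective A (Prod.ext_iff.1 (Sum.inl_injective h3)).1).symm)
    _ le_rfl Finset.univ rfl (fun e _ _ => by
      rw [Finset.card_image_of_injective _ fun ν ν' h =>
        (Prod.ext_iff.1 (Sum.inl_injective h)).2]
      simp) f (Finset.subset_univ f) S (fun e _ => Finset.disjoint_left.2 fun j h1 h2 => by
      obtain ⟨ν, -, rfl⟩ := Finset.mem_image.1 h1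
      obtain ⟨ν', -, h3⟩ := Finset.mem_image.1 h2
      exact Sum.inl_ne_inr h3) (by
      rw [Finset.card_image_of_injective _ fun ν ν' h =>
        (Prod.ext_iff.1 (Sum.inr_injective h)).2, hf]
      simpa using hK)
  have h1 := gen_cyl Finset.univ (Sy Jm c Finset.univ S f)
    (fun x j a => rnc (L := Fin w) Fin.val (x (j, A a))) (fun j a β => PF_pow (PF_coord _) _)
    (x₀ := fun p => extend A (fun a => y (p.1, a)) 0 p.2) (by
      simp only [A.injective.extend_apply]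
      exact hy)
  filter_upwards [h1] with x hx
  refine hx.mono ?_
  rintro η ⟨⟨j, e⟩, ⟨-, h2, h3⟩ | ⟨h3, h2⟩, h4⟩
  · obtain ⟨ν, -, rfl⟩ := Finset.mem_image.1 (show j ∈ Jm e from h3)
    refine ⟨Sum.inl (⟨e.map A, Finset.mem_powersetCard.2 ⟨Finset.subset_univ _, by
      rw [Finset.card_map]; exact h2⟩⟩, ν), e, fun a => (A a, x (Sum.inl (e.map A, ν), A a)), ?_,
      fun a ha => ⟨rfl, h4 a ha⟩⟩
    simp only [Sum.elim_inl, objs, Finset.map_val, Multiset.map_map]
    rfl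
  · obtain ⟨ν, -, rfl⟩ := Finset.mem_image.1 h3
    obtain rfl : e = f := h2
    refine ⟨Sum.inr (⟨e.map A, Finset.mem_powersetCard.2 ⟨Finset.subset_univ _, by
      rw [Finset.card_map]; exact hf⟩⟩, ν), e, fun a => (A a, x (Sum.inr (e.map A, ν), A a)), ?_,
      fun a ha => ⟨rfl, h4 a ha⟩⟩
    simp only [Sum.elim_inr, objs, Finset.map_val, Multiset.map_map]
    rfl

omit [Fintype ι] [DecidableEq ι] in
theorem CylP_mono {I I' : Type} {O : I → Multiset (Fin M × ℂ)} {O' : I' → Multiset (Fin M × ℂ)}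
    (h : ∀ i, ∃ i', O i = O' i') (A : ι → Fin M) : CylP w O A ⊆ CylP w O' A := by
  rintro η ⟨i, e, γ, h1, h2⟩
  obtain ⟨i', hi⟩ := h i
  exact ⟨i', e, γ, h1.trans hi, h2⟩

theorem card_objs {d n : ℕ} (x : Finset (Fin M) × Fin n → Fin M → ℂ)
    (i : (Finset.univ : Finset (Fin M)).powersetCard d × Fin n) : (objs x i).card = d := by
  rw [objs, Multiset.card_map]
  exact (Finset.mem_powersetCard.1 i.1.2).2

theorem exists_family {c n d n' e₀ : ℕ} (hc : 1 ≤ c) {u g : ℕ → ℕ}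
    (hu : ∀ m < Fintype.card ι, w ≤ u (m + 1) + m.choose (c - 1) * g (m + 1))
    (hg : ∀ m < Fintype.card ι, g (m + 1) * KK u m (c - 1) ≤ n) (hd : d ≤ Fintype.card ι)
    (hK : KK u (Fintype.card ι) d ≤ n') (K : Finset (Fin e₀ → Fin M))
    (hA : ∀ A : ι → Fin M, ¬ Injective A → ∃ a : Fin e₀ ↪ ι, A ∘ a ∈ K) :
    ∃ H : ((Finset.univ : Finset (Fin M)).powersetCard c × Fin n) ⊕
        ((Finset.univ : Finset (Fin M)).powersetCard d × Fin n') ⊕ (K × (Fin e₀ → Fin w)) →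
        Multiset ℂ, (∀ i, (H (Sum.inl i)).card = c) ∧ (∀ i, (H (Sum.inr (Sum.inl i))).card = d) ∧
      (∀ i, (H (Sum.inr (Sum.inr i))).card = e₀) ∧
      Kill (Finset.univ : Finset ι) (CylM (rnc (ex (M := M) (w := w))) H) := by
  have h1 := eventually_all.2 fun A : ι ↪ Fin M => gen_pat hc hu hg hd hK A
  have h2 := eventually_all.2 fun p : ((Finset (Fin M) × Fin n) ⊕ (Finset (Fin M) × Fin n')) ×
    Fin M => gen_ne (PF_coord p) (x₀ := fun _ => 1) one_ne_zero
  obtain ⟨x, h3, h4⟩ := (h1.and h2).exists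
  let O₃ : K × (Fin e₀ → Fin w) → Multiset (Fin M × ℂ) := fun p =>
    Finset.univ.val.map fun l => (p.1.1 l, ((p.2 l : ℕ) : ℂ) + 1)
  obtain ⟨H, h5, h6⟩ := kill_blocks (ι := ι) (w := w)
    (O := Sum.elim (objs (d := c) fun j b => x (Sum.inl j, b))
      (Sum.elim (objs (d := d) fun j b => x (Sum.inr j, b)) O₃)) (by
    rintro (i | i | i) γ hγ <;> simp only [Sum.elim_inl, Sum.elim_inr, objs, O₃] at hγ <;>
      obtain ⟨b, -, rfl⟩ := Multiset.mem_map.1 hγ
    · exact h4 _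
    · exact h4 _
    · exact Nat.cast_add_one_ne_zero _) fun A => by
    by_cases hi : Injective A
    · refine (h3 ⟨A, hi⟩).mono (CylP_mono ?_ A)
      rintro (i | i)
      · exact ⟨Sum.inl i, rfl⟩
      · exact ⟨Sum.inr (Sum.inl i), rfl⟩
    · obtain ⟨a, ha⟩ := hA A hi
      exact kill_pat_grid a fun β => ⟨Sum.inr (Sum.inr (⟨_, ha⟩, β)), rfl⟩
  refine ⟨H, fun i => (h5 _).trans ?_, fun i => (h5 _).trans ?_, fun i => (h5 _).trans ?_, h6⟩
  · rw [Sum.elim_inl, card_objs]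
  · rw [Sum.elim_inr, Sum.elim_inl, card_objs]
  · simp [O₃]

/-- The case of single points, with one block. -/
theorem exists_family_one (v : ι) : ∃ H : Fin w → Multiset ℂ, (∀ i, (H i).card = 1) ∧
    Kill (Finset.univ : Finset ι) (CylM (rnc (ex (M := 1) (w := w))) H) := by
  obtain ⟨H, h5, h6⟩ := kill_blocks (ι := ι) (w := w) (M := 1)
    (O := fun i : Fin w => {(0, ((i : ℕ) : ℂ) + 1)}) (by
    intro i γ hγ
    rw [Multiset.mem_singleton.1 hγ]
    exact Nat.cast_add_one_ne_zero _) fun A =>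
    kill_pat_grid (e₀ := 1) ⟨fun _ => v, fun _ _ _ => Subsingleton.elim _ _⟩ fun β =>
      ⟨β 0, by simpa using Subsingleton.elim _ _⟩
  exact ⟨H, fun i => (h5 i).trans (Multiset.card_singleton _), h6⟩

theorem exists_noninj {e₀ : ℕ} (h2 : 2 ≤ e₀) (he : e₀ ≤ Fintype.card ι) {A : ι → Fin M}
    (hA : ¬ Injective A) : ∃ a : Fin e₀ ↪ ι, ¬ Injective (A ∘ a) := by
  obtain ⟨j, j', h1, h3⟩ := not_injective_iff.1 hA
  obtain ⟨e, k1, -, k2⟩ := Finset.exists_subsuperset_card_eq (Finset.subset_univ {j, j'})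
    (by rw [Finset.card_pair h3]; exact h2) he
  let φ := (Finset.equivFinOfCardEq k2).symm
  refine ⟨φ.toEmbedding.trans (Embedding.subtype _), fun h => h3 ?_⟩
  have k3 := @h (φ.symm ⟨j, k1 (by simp)⟩) (φ.symm ⟨j', k1 (by simp)⟩) (by simpa using h1)
  simpa using k3

end Pool.Agent.P.MP_c64be1_ag.Sh
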