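import Mathlib

/-! The polynomials that count the forms vanishing on general linear spaces. -/

namespace Pool.Agent.P.MP_c64be1_ag.Sh

open Finset
open scoped Nat

/-- The coefficients. -/
noncomputable def aa (c m j : ℕ) : ℝ := if j * c ≤ m then 1 / (j ! * (m - j * c)!) else 0

/-- The polynomials. -/
noncomputable def PP (c m : ℕ) (y : ℝ) : ℝ := ∑ j ∈ range (m + 1), aa c m j * (-y) ^ j

/-- Minus the derivative. -/
noncomputable def QQ (c m : ℕ) (y : ℝ) : ℝ := if c ≤ m then PP c (m - c) y else 0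

variable {c : ℕ}

theorem PP_eq (hc : 1 ≤ c) {m B : ℕ} (hB : m < B * c) (y : ℝ) :
    PP c m y = ∑ j ∈ range B, aa c m j * (-y) ^ j := by
  refine sum_congr_of_eq_on_inter (fun j _ h => ?_) (fun j _ h => ?_) fun _ _ _ => rfl
  · rw [mem_range, not_lt] at h
    rw [aa, if_neg (by nlinarith), zero_mul]
  · rw [mem_range, not_lt] at h
    rw [aa, if_neg (by nlinarith), zero_mul]

theorem PP_sum (c m : ℕ) (y : ℝ) : PP c m y = ∑ j ∈ (range (m + 1)).filter fun j => j * c ≤ m,
    (-y) ^ j / (j ! * (m - j * c)!) := by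
  rw [PP, sum_filter]
  refine sum_congr rfl fun j _ => ?_
  rw [aa]
  split_ifs
  · ring
  · rw [zero_mul]

theorem PP_small (hc : 1 ≤ c) {m : ℕ} (h : m < c) (y : ℝ) : PP c m y = 1 / m ! := by
  rw [PP_eq hc (B := 1) (by omega)]
  simp [aa]

theorem PP_self (hc : 1 ≤ c) (y : ℝ) : PP c c y = 1 / (c)! - y := by
  rw [PP_eq hc (B := 2) (by omega)]
  simp [aa, sum_range_succ, sub_eq_add_neg]

theorem PP_zero (c m : ℕ) : PP c m 0 = 1 / m ! := by
  rw [PP, sum_range_succ']
  simp [aa]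

theorem aa_succ (c m j : ℕ) :
    ((j : ℝ) + 1) * aa c m (j + 1) = if c ≤ m then aa c (m - c) j else 0 := by
  have h0 : (j + 1) * c = j * c + c := by ring
  unfold aa
  rw [h0]
  split_ifs with h1 h2 h3 h2 h3 <;> try omega
  · rw [show m - (j * c + c) = m - c - j * c by omega, Nat.factorial_succ]
    push_cast
    field_simp
  · rw [mul_zero]
  · rw [mul_zero]

theorem aa_rec (c m j : ℕ) :
    ((m : ℝ) + 1) * aa c (m + 1) j = aa c m j + c * (j * aa c (m + 1) j) := by
  unfold aa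
  split_ifs with h1 h2 h2 <;> try omega
  · obtain ⟨l, rfl⟩ := Nat.exists_eq_add_of_le h2
    rw [add_assoc, Nat.add_sub_cancel_left, Nat.add_sub_cancel_left, Nat.factorial_succ]
    push_cast
    field_simp
    ring
  · have h3 : ((m : ℝ) + 1) = j * c := by exact_mod_cast (by omega : m + 1 = j * c)
    rw [h3]
    ring
  · ring

theorem sum_shift (hc : 1 ≤ c) (m : ℕ) (y : ℝ) :
    ∑ j ∈ range m, ((j : ℝ) + 1) * aa c m (j + 1) * (-y) ^ j = QQ c m y := by
  simp only [aa_succ, QQ]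
  split_ifs with h
  · exact (PP_eq hc (by nlinarith [Nat.sub_add_cancel h]) y).symm
  · simp

theorem PP_deriv (hc : 1 ≤ c) (m : ℕ) (y : ℝ) : HasDerivAt (PP c m) (-QQ c m y) y := by
  have h := HasDerivAt.fun_sum fun j (_ : j ∈ range (m + 1)) =>
    ((hasDerivAt_neg' y).fun_pow j).const_mul (aa c m j)
  refine h.congr_deriv ?_
  rw [sum_range_succ', ← sum_shift hc, ← sum_neg_distrib]
  simp only [Nat.cast_zero, zero_mul, mul_zero, add_zero, Nat.add_sub_cancel, Nat.cast_succ]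
  exact sum_congr rfl fun j _ => by ring

theorem PP_cont (hc : 1 ≤ c) (m : ℕ) : Continuous (PP c m) :=
  continuous_iff_continuousAt.2 fun y => (PP_deriv hc m y).continuousAt

theorem PP_rec (hc : 1 ≤ c) (m : ℕ) (y : ℝ) :
    ((m : ℝ) + 1) * PP c (m + 1) y = PP c m y - c * y * QQ c (m + 1) y := by
  rw [PP_eq hc (m := m) (B := m + 1 + 1) (by nlinarith), PP, mul_sum, ← sum_shift hc]
  simp only [← mul_assoc, aa_rec]
  simp only [add_mul _ (_ * _ * _), sum_add_distrib]
  rw [sum_range_succ' fun j => c * j * aa c (m + 1) j * (-y) ^ j, sub_eq_add_neg,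
    mul_sum, ← sum_neg_distrib]
  simp only [Nat.cast_zero, zero_mul, mul_zero, add_zero, Nat.cast_succ]
  exact congrArg _ (sum_congr rfl fun j _ => by ring)

/-- The first zero. -/
theorem exists_sigma (hc : 1 ≤ c) {N : ℕ} (hN : c ≤ N) : ∃ σ : ℝ, 0 < σ ∧ PP c N σ = 0 ∧
    (∀ j ≤ N, ∀ y, 0 ≤ y → y < σ → 0 < PP c j y) ∧ (2 ≤ c → ∀ j < N, 0 < PP c j σ) ∧
    (c = 1 → 1 ≤ σ) := by
  let S : Set ℝ := Set.Ici 0 ∩ ⋃ j ∈ Set.Iic N, {y | PP c j y ≤ 0}
  have h1 : IsClosed S := isClosed_Ici.inter ((Set.finite_Iic N).isClosed_biUnion fun j _ =>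
    isClosed_le (PP_cont hc j) continuous_const)
  have h2 : BddBelow S := ⟨0, fun y hy => hy.1⟩
  obtain ⟨h3, h4⟩ := h1.csInf_mem ⟨1 / c !, Set.mem_Ici.2 (by positivity), Set.mem_biUnion hN
    (show PP c c _ ≤ 0 by rw [PP_self hc, sub_self])⟩ h2
  obtain ⟨j₀, h5, h6⟩ := Set.mem_iUnion₂.1 h4
  have h7 : ∀ j ≤ N, ∀ y, 0 ≤ y → y < sInf S → 0 < PP c j y := fun j hj y k1 k2 =>
    not_le.1 fun k3 => notMem_of_lt_csInf k2 h2 ⟨k1, Set.mem_biUnion hj k3⟩
  generalize sInf S = σ at h3 h6 h7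
  have h8 : 0 < σ := lt_of_le_of_ne h3 (by
    rintro rfl
    rw [Set.mem_ofPred_eq, PP_zero] at h6
    exact absurd h6 (not_le.2 (by positivity)))
  have h9 : ∀ j ≤ N, 0 ≤ PP c j σ := fun j hj =>
    closure_minimal (s := Set.Ico 0 σ) (fun y hy => (h7 j hj y hy.1 hy.2).le)
      (isClosed_le continuous_const (PP_cont hc j))
      (by rw [closure_Ico h8.ne]; exact ⟨h8.le, le_rfl⟩)
  have h10 : ∀ j < N, PP c j σ = 0 → PP c (j + 1) σ = 0 ∧ QQ c (j + 1) σ = 0 := by
    intro j hj k1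
    have k2 := PP_rec hc j σ
    have k3 : 0 ≤ QQ c (j + 1) σ := by
      rw [QQ]
      split_ifs
      · exact h9 _ (by omega)
      · exact le_rfl
    have k4 := mul_nonneg (by positivity : 0 ≤ (j : ℝ) + 1) (h9 (j + 1) hj)
    have k5 : (0 : ℝ) < c * σ := mul_pos (by exact_mod_cast hc) h8
    have k6 := mul_nonneg k5.le k3
    exact ⟨(mul_eq_zero.1 (by linarith)).resolve_left (by positivity : (j : ℝ) + 1 ≠ 0),
      (mul_eq_zero.1 (by linarith)).resolve_left k5.ne'⟩
  have h11 : PP c N σ = 0 :=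
    Nat.le_induction (P := fun j _ => j ≤ N → PP c j σ = 0)
      (fun _ => le_antisymm h6 (h9 _ h5)) (fun j _ ih hj => (h10 j hj (ih (by omega))).1) N h5
      le_rfl
  refine ⟨σ, h8, h11, h7, fun k1 j => ?_, ?_⟩
  · induction j using Nat.strong_induction_on with
    | _ j ih =>
      intro hj
      refine lt_of_le_of_ne (h9 j hj.le) fun k2 => ?_
      have k3 := (h10 j hj k2.symm).2
      rw [QQ] at k3
      split_ifs at k3 with k4
      · exact (ih _ (by omega) (by omega)).ne' k3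
      · rw [PP_small hc (by omega)] at k2
        exact absurd k2 (ne_of_lt (by positivity))
  · rintro rfl
    by_contra k1
    have k2 : ∀ j, 0 < PP 1 j σ := fun j => by
      induction j with
      | zero => rw [PP_small hc one_pos]; positivity
      | succ j ih =>
        have k3 := PP_rec hc j σ
        rw [QQ, if_pos (by omega), Nat.add_sub_cancel] at k3
        refine pos_of_mul_pos_left (b := (j : ℝ) + 1) ?_ (by positivity)
        rw [mul_comm, k3]
        push_cast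
        nlinarith
    exact (k2 N).ne' h11

end Pool.Agent.P.MP_c64be1_ag.Sh
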