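import Pool.Agent.P.MP_c64be1_ag.Sh.Herm

/-! The largest dimension of a sum of symmetric powers of subspaces. -/

namespace Pool.Agent.P.MP_c64be1_ag.Sh

open MvPolynomial Filter Function Module Asy

variable {σ κ I J : Type}

/-- Families of spaces of linear forms of dimension at most `r`. -/
def Adm (r : ℕ) (U : I → Submodule ℂ (MvPolynomial σ ℂ)) : Prop :=
  ∀ i, U i ≤ homogeneousSubmodule σ ℂ 1 ∧ finrank ℂ (U i) ≤ r

/-- The largest dimension of a sum of `s` symmetric powers. -/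
noncomputable def rk (n r k s : ℕ) : ℕ :=
  sSup {d | ∃ U : Fin s → Submodule ℂ (MvPolynomial (Fin n) ℂ),
    Adm r U ∧ finrank ℂ ↥(⨆ i, U i ^ k) = d}

theorem lin_eq (n : ℕ) : homogeneousSubmodule (Fin n) ℂ 1 = VX Finset.univ := by
  rw [homogeneousSubmodule_one_eq_span_X, VX, spanX, Finset.coe_univ, Set.image_univ]

instance fd_lin_pow (n k : ℕ) : FiniteDimensional ℂ ↥(homogeneousSubmodule (Fin n) ℂ 1 ^ k) := by
  rw [lin_eq]
  infer_instance

theorem finrank_lin_pow (n k : ℕ) :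
    finrank ℂ ↥(homogeneousSubmodule (Fin n) ℂ 1 ^ k) = NN n k := by
  rw [lin_eq, finrank_VX_pow, Finset.card_univ, Fintype.card_fin]

theorem Adm.le {r : ℕ} {U : I → Submodule ℂ (MvPolynomial σ ℂ)} (h : Adm r U) (k : ℕ) :
    ⨆ i, U i ^ k ≤ homogeneousSubmodule σ ℂ 1 ^ k :=
  iSup_le fun i => pow_le_pow_left' (h i).1 k

theorem Adm.fd {n r : ℕ} {U : I → Submodule ℂ (MvPolynomial (Fin n) ℂ)} (h : Adm r U) (k : ℕ) :
    FiniteDimensional ℂ ↥(⨆ i, U i ^ k) := Submodule.finiteDimensional_of_le (h.le k)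

theorem rk_bdd (n r k s : ℕ) : NN n k ∈ upperBounds {d | ∃ U : Fin s →
    Submodule ℂ (MvPolynomial (Fin n) ℂ), Adm r U ∧ finrank ℂ ↥(⨆ i, U i ^ k) = d} := by
  rintro _ ⟨U, hU, rfl⟩
  exact (Submodule.finrank_mono (hU.le k)).trans (finrank_lin_pow n k).le

theorem exists_rk (n r k s : ℕ) : ∃ U : Fin s → Submodule ℂ (MvPolynomial (Fin n) ℂ),
    Adm r U ∧ finrank ℂ ↥(⨆ i, U i ^ k) = rk n r k s :=
  Nat.sSup_mem (s := {d | ∃ U : Fin s → Submodule ℂ (MvPolynomial (Fin n) ℂ),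
    Adm r U ∧ finrank ℂ ↥(⨆ i, U i ^ k) = d}) ⟨_, fun _ => ⊥, fun _ => ⟨bot_le, by simp⟩, rfl⟩
    ⟨_, rk_bdd n r k s⟩

theorem le_rk [Fintype I] {n r s : ℕ} {U : I → Submodule ℂ (MvPolynomial (Fin n) ℂ)}
    (h : Adm r U) (hs : Fintype.card I ≤ s) (k : ℕ) :
    finrank ℂ ↥(⨆ i, U i ^ k) ≤ rk n r k s := by
  obtain ⟨f⟩ : Nonempty (I ↪ Fin s) := Embedding.nonempty_of_card_le (by simpa)
  have h1 : Adm r (extend f U ⊥) := fun j => by
    by_cases hj : ∃ i, f i = j
    · obtain ⟨i, rfl⟩ := hj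
      rw [f.injective.extend_apply]
      exact h i
    · rw [extend_apply' _ _ _ hj]
      exact ⟨bot_le, by simp⟩
  have := h1.fd k
  refine le_trans (Submodule.finrank_mono (iSup_le fun i => le_iSup_of_le (f i) ?_))
    (le_csSup ⟨_, rk_bdd n r k s⟩ ⟨_, h1, rfl⟩)
  rw [f.injective.extend_apply]

theorem rk_zero (n r k : ℕ) : rk n r k 0 = 0 := by
  obtain ⟨U, -, h⟩ := exists_rk n r k 0
  rw [← h, iSup_of_empty, finrank_bot]

theorem exists_span [Fintype J] {W : Type} [AddCommGroup W] [Module ℂ W] (U : Submodule ℂ W)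
    [FiniteDimensional ℂ U] (h : finrank ℂ U ≤ Fintype.card J) :
    ∃ v : J → W, Submodule.span ℂ (Set.range v) = U := by
  obtain ⟨f⟩ : Nonempty (Fin (finrank ℂ U) ↪ J) := Embedding.nonempty_of_card_le (by simpa)
  let b := Module.finBasis ℂ U
  refine ⟨extend f (fun i => b i) 0, le_antisymm (Submodule.span_le.2 ?_) fun u hu => ?_⟩
  · rintro _ ⟨j, rfl⟩
    by_cases hj : ∃ i, f i = j
    · obtain ⟨i, rfl⟩ := hj
      rw [f.injective.extend_apply]
      exact (b i).2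
    · rw [extend_apply' _ _ _ hj]
      exact U.zero_mem
  · have h1 := congrArg Subtype.val (b.sum_repr ⟨u, hu⟩)
    rw [Submodule.coe_sum] at h1
    rw [← show _ = u from h1]
    exact Submodule.sum_mem _ fun i _ => Submodule.smul_mem _ _ (Submodule.subset_span
      ⟨f i, f.injective.extend_apply _ _ _⟩)

theorem exists_par [Fintype σ] [Fintype J] {U : Submodule ℂ (MvPolynomial σ ℂ)}
    (hU : U ≤ homogeneousSubmodule σ ℂ 1) (h : finrank ℂ U ≤ Fintype.card J) :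
    ∃ v : J → σ → ℂ, Submodule.span ℂ (Set.range fun j => linF σ (v j)) = U := by
  have := Submodule.finiteDimensional_of_le hU
  obtain ⟨v, hv⟩ := exists_span U h
  choose a ha using fun j => show v j ∈ LinearMap.range (linF σ) from
    range_linF (σ := σ) ▸ hU (hv ▸ Submodule.subset_span ⟨j, rfl⟩)
  exact ⟨a, by simpa only [ha] using hv⟩

theorem finrank_pow_le {A : Type} [CommRing A] [Algebra ℂ A] (U : Submodule ℂ A)
    [FiniteDimensional ℂ U] {r : ℕ} (h : finrank ℂ U ≤ r) (k : ℕ) :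
    finrank ℂ ↥(U ^ k) ≤ NN r k := by
  obtain ⟨v, hv⟩ := exists_span (J := Fin r) U (by simpa)
  have h1 : U = (homogeneousSubmodule (Fin r) ℂ 1).map (aeval v).toLinearMap := by
    rw [homogeneousSubmodule_one_eq_span_X, Submodule.map_span, ← Set.range_comp, ← hv]
    congr 2
    funext i
    simp
  rw [h1, ← Submodule.map_pow]
  exact (Submodule.finrank_map_le _ _).trans (finrank_lin_pow r k).le

theorem adm_span [Fintype J] {r : ℕ} (hr : Fintype.card J ≤ r) {v : I → J → MvPolynomial σ ℂ}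
    (hv : ∀ i j, v i j ∈ homogeneousSubmodule σ ℂ 1) :
    Adm r fun i => Submodule.span ℂ (Set.range (v i)) := fun i =>
  ⟨Submodule.span_le.2 (Set.range_subset_iff.2 (hv i)), (finrank_range_le_card _).trans hr⟩

theorem iSup_pow_eq {A : Type} [CommRing A] [Algebra ℂ A] (v : I → J → A) (k : ℕ) :
    ⨆ i, Submodule.span ℂ (Set.range (v i)) ^ k =
      Submodule.span ℂ (Set.range fun t : I × (Fin k → J) => ∏ l, v t.1 (t.2 l)) := by
  simp only [Submodule.span_pow, ← Submodule.span_iUnion]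
  congr 1
  ext a
  simp only [Set.mem_iUnion, Set.mem_pow, List.prod_ofFn, Set.mem_range]
  constructor
  · rintro ⟨i, f, rfl⟩
    choose j hj using fun l => (f l).2
    exact ⟨(i, j), by simp only [hj]⟩
  · rintro ⟨t, rfl⟩
    exact ⟨t.1, fun l => ⟨_, t.2 l, rfl⟩, rfl⟩

theorem gen_iSup [Finite I] [Finite J] (v : (κ → ℂ) → I → J → MvPolynomial σ ℂ)
    (hv : ∀ i j, (fun x => v x i j) ∈ PV κ σ) (k : ℕ) (x₀ : κ → ℂ) :
    ∀ᶠ x in gen κ, finrank ℂ ↥(⨆ i, Submodule.span ℂ (Set.range (v x₀ i)) ^ k) ≤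
      finrank ℂ ↥(⨆ i, Submodule.span ℂ (Set.range (v x i)) ^ k) := by
  filter_upwards [gen_rank (fun (t : I × (Fin k → J)) x => ∏ l, v x t.1 (t.2 l))
    (fun t => PV_prod _ fun l _ => hv _ _) x₀] with x hx
  rwa [iSup_pow_eq, iSup_pow_eq]

theorem fills_of_rk {n r k s : ℕ} (hr : r ≤ n) (h : NN n k ≤ rk n r k s) :
    SecantFills (Fin n) k r s := by
  obtain ⟨U, hU, h1⟩ := exists_rk n r k s
  have h2 := Submodule.eq_of_le_of_finrank_le (hU.le k) (by rwa [finrank_lin_pow, h1])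
  intro P hP F hF
  refine hP F ?_
  have h3 : F ∈ ⨆ i ∈ Finset.univ, U i ^ k := by
    simp only [Finset.mem_univ, iSup_pos]
    rw [h2, homogeneousSubmodule_one_pow]
    exact hF
  obtain ⟨μ, hμ⟩ := (Submodule.mem_iSup_finset_iff_exists_sum _ _).1 h3
  exact ⟨fun i => μ i, fun i => mem_subCone_of_le (by simpa) (hU i).1 (hU i).2 (μ i).2, hμ.symm⟩

theorem adm_UU {N c : ℕ} {H : I → Multiset ℂ} (h : ∀ i, (H i).card = c) :
    Adm (N + 1 - c) fun i => UU N (H i) := fun i => ⟨UU_le _ _, h i ▸ finrank_UU _ _⟩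

theorem rk_top [Fintype I] {N c k s : ℕ} {H : I → Multiset ℂ} (h : ∀ i, (H i).card = c)
    (hs : Fintype.card I ≤ s)
    (hf : homogeneousSubmodule (Fin (N + 1)) ℂ 1 ^ k ≤ ⨆ i, UU N (H i) ^ k) :
    NN (N + 1) k ≤ rk (N + 1) (N + 1 - c) k s := by
  have := (adm_UU (N := N) h).fd k
  rw [← finrank_lin_pow]
  exact (Submodule.finrank_mono hf).trans (le_rk (adm_UU h) hs k)

theorem rk_low [Fintype I] [Fintype J] {N c k s : ℕ} {H : I ⊕ J → Multiset ℂ}
    (h : ∀ i, (H (Sum.inl i)).card = c) (h' : ∀ i, (H (Sum.inr i)).card = N)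
    (hs : Fintype.card I ≤ s)
    (hf : homogeneousSubmodule (Fin (N + 1)) ℂ 1 ^ k ≤ ⨆ i, UU N (H i) ^ k) :
    NN (N + 1) k ≤ rk (N + 1) (N + 1 - c) k s + Fintype.card J := by
  have := (adm_UU (N := N) h).fd k
  have := (adm_UU (N := N) h').fd k
  have := fun h => Submodule.finiteDimensional_of_le (UU_le N h)
  have := fun h => Submodule.finiteDimensional_of_le (pow_le_pow_left' (UU_le N h) k)
  rw [iSup_sum] at hf
  rw [← finrank_lin_pow]
  refine (Submodule.finrank_mono hf).trans ((Submodule.finrank_add_le_finrank_add_finrank _ _).trans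
    (add_le_add (le_rk (adm_UU h) hs k) ((finrank_iSup_le_sum _).trans ?_)))
  refine (Finset.sum_le_card_nsmul _ _ 1 fun i _ => ?_).trans (by simp)
  refine (finrank_pow_le _ (adm_UU h' i).2 k).trans (le_of_eq ?_)
  simp [NN]

end Pool.Agent.P.MP_c64be1_ag.Sh
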