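import Pool.Agent.P.MP_c64be1_ag.Sh.Rank
import Pool.Agent.P.MP_c64be1_ag.NotDense

/-! Adding one subspace, and the count of parameters. -/

namespace Pool.Agent.P.MP_c64be1_ag.Sh

open MvPolynomial Filter Function Module Asy

variable {σ κ I J : Type}

theorem exists_split {W : Type} [AddCommGroup W] [Module ℂ W] {L U₀ U : Submodule ℂ W}
    [FiniteDimensional ℂ L] {r c : ℕ} (hL : finrank ℂ L = r + c) (h0 : U₀ ≤ L)
    (h1 : finrank ℂ U₀ = r) (hU : U ≤ L) (h2 : finrank ℂ U ≤ r) :
    ∃ Z B : Submodule ℂ W, Z ≤ U₀ ∧ B ≤ L ∧ finrank ℂ Z ≤ r - c ∧ finrank ℂ B ≤ r - (r - c) ∧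
      U ≤ Z ⊔ B := by
  obtain ⟨U', k1, k2, k3⟩ := exists_between_finrank L r (by omega) U hU h2
  have := Submodule.finiteDimensional_of_le h0
  have := Submodule.finiteDimensional_of_le k2
  have k4 := Submodule.finrank_sup_add_finrank_inf_eq U₀ U'
  have k5 := Submodule.finrank_mono (sup_le h0 k2)
  obtain ⟨Z, -, k6, k7⟩ := exists_between_finrank (U₀ ⊓ U') (r - c) (by omega) ⊥ bot_le (by simp)
  obtain ⟨C, hC⟩ := Submodule.exists_isCompl Z
  have := Submodule.finiteDimensional_of_le k6
  have k8 : Z ⊔ C ⊓ U' = U' := by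
    rw [← sup_inf_assoc_of_le _ (k6.trans inf_le_right), hC.sup_eq_top, top_inf_eq]
  have k9 := Submodule.finrank_sup_add_finrank_inf_eq Z (C ⊓ U')
  rw [k8, ← inf_assoc, hC.inf_eq_bot, bot_inf_eq, finrank_bot] at k9
  exact ⟨Z, C ⊓ U', k6.trans inf_le_left, inf_le_right.trans k2, k7.le, by omega, k8.symm ▸ k1⟩

section step

variable {n : ℕ} {T T' : Type} [Fintype T] [Fintype T']

/-- The parameters: a spanning family of one subspace, and elements of it. -/
abbrev Par (I T T' : Type) (n : ℕ) : Type := ((T ⊕ T') × Fin n) ⊕ (I × T × (T ⊕ T'))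

/-- Elements of the special subspace. -/
noncomputable def ww (x : Par I T T' n → ℂ) (i : I) (t : T) : MvPolynomial (Fin n) ℂ :=
  linF _ (∑ j, x (Sum.inr (i, t, j)) • fun a => x (Sum.inl (j, a)))

/-- The spanning families of all subspaces. -/
noncomputable def vv (b : I → T' → Fin n → ℂ) (x : Par I T T' n → ℂ) :
    Option I → T ⊕ T' → MvPolynomial (Fin n) ℂ
  | none => fun j => linF _ fun a => x (Sum.inl (j, a))
  | some i => Sum.elim (ww x i) fun t => linF _ (b i t)

theorem ww_eq (b : I → T' → Fin n → ℂ) (x : Par I T T' n → ℂ) (i : I) (t : T) :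
    ww x i t = ∑ j, x (Sum.inr (i, t, j)) • vv b x none j := by
  simp only [ww, vv, map_sum, map_smul]

theorem ww_PV (i : I) (t : T) : (fun x : Par I T T' n → ℂ => ww x i t) ∈ PV _ (Fin n) := by
  unfold ww
  refine PV_linF fun a => ?_
  simp only [Finset.sum_apply, Pi.smul_apply, smul_eq_mul]
  exact PF_sum _ fun j _ => PF_mul (PF_coord _) (PF_coord _)

theorem vv_PV (b : I → T' → Fin n → ℂ) (i : Option I) (j : T ⊕ T') :
    (fun x : Par I T T' n → ℂ => vv b x i j) ∈ PV _ (Fin n) := by
  rcases i with _ | i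
  · exact PV_linF fun a => PF_coord _
  · rcases j with t | t
    · exact ww_PV i t
    · exact PV_linF fun a => PF_const _

theorem vv_mem (b : I → T' → Fin n → ℂ) (x : Par I T T' n → ℂ) (i : Option I) (j : T ⊕ T') :
    vv b x i j ∈ homogeneousSubmodule (Fin n) ℂ 1 := by
  rcases i with _ | i
  · exact linF_mem _
  · rcases j with t | t <;> exact linF_mem _

theorem vv_bound {r s : ℕ} (hr : Fintype.card (T ⊕ T') ≤ r) (b : Fin s → T' → Fin n → ℂ)
    (x : Par (Fin s) T T' n → ℂ) (k : ℕ) :
    finrank ℂ ↥(⨆ i, Submodule.span ℂ (Set.range (vv b x i)) ^ k) +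
      finrank ℂ ↥(⨆ i, Submodule.span ℂ (Set.range (ww x i)) ^ k) ≤ NN r k + rk n r k s := by
  have h1 := adm_span hr (vv_mem b x)
  have h2 : Adm r fun i => Submodule.span ℂ (Set.range (vv b x (some i))) := fun i => h1 (some i)
  have := h2.fd k
  have := Submodule.finiteDimensional_of_le (h1 none).1
  have := Submodule.finiteDimensional_of_le (pow_le_pow_left' (h1 none).1 k)
  have h3 := Submodule.finrank_sup_add_finrank_inf_eq
    (Submodule.span ℂ (Set.range (vv b x none)) ^ k)
    (⨆ i, Submodule.span ℂ (Set.range (vv b x (some i))) ^ k)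
  rw [iSup_option]
  refine le_trans (add_le_add le_rfl (Submodule.finrank_mono (le_inf (iSup_le fun i => ?_)
    (iSup_mono fun i => ?_)))) (h3.le.trans (add_le_add (finrank_pow_le _ (h1 none).2 k)
      (le_rk h2 (by simp) k)))
  · refine pow_le_pow_left' (Submodule.span_le.2 (Set.range_subset_iff.2 fun t => ?_)) k
    rw [ww_eq b]
    exact Submodule.sum_mem _ fun j _ => Submodule.smul_mem _ _ (Submodule.subset_span ⟨j, rfl⟩)
  · refine pow_le_pow_left' (Submodule.span_mono (Set.range_subset_iff.2 fun t => ?_)) k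
    exact ⟨Sum.inl t, rfl⟩

end step

/-- A new subspace meets the old ones in subspaces of the same codimension. -/
theorem rk_succ (r c k s : ℕ) :
    rk (r + c) r k (s + 1) + rk r (r - c) k s ≤ NN r k + rk (r + c) r k s := by
  have hc : Fintype.card (Fin (r - c) ⊕ Fin (r - (r - c))) = r := by simp
  obtain ⟨U, hU, h1⟩ := exists_rk (r + c) r k (s + 1)
  obtain ⟨W, hW, h2⟩ := exists_rk r (r - c) k s
  have hL := (finrank_lin (Fin (r + c))).trans (Fintype.card_fin _)
  obtain ⟨U₀, k1, k2, k3⟩ := exists_between_finrank _ r (by omega) (U 0) (hU 0).1 (hU 0).2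
  choose Z B k4 k5 k6 k7 k8 using fun i : Fin s =>
    exists_split hL k2 k3 (hU i.succ).1 (hU i.succ).2
  obtain ⟨A, hA⟩ := exists_par k2 (k3.trans hc.symm).le
  choose b hb using fun i => exists_par (J := Fin (r - (r - c))) (k5 i) (by simpa using k7 i)
  choose z hz using fun i => exists_par (J := Fin (r - c)) ((k4 i).trans k2) (by simpa using k6 i)
  choose y hy using fun i t => (Submodule.mem_span_range_iff_exists_fun ℂ).1
    (((hz i).le.trans ((k4 i).trans hA.ge)) (Submodule.subset_span ⟨t, rfl⟩))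
  choose a ha using fun i => exists_par (J := Fin (r - c)) (hW i).1 (by simpa using (hW i).2)
  let e := Fintype.equivFinOfCardEq hc
  let x₀ : Par (Fin s) (Fin (r - c)) (Fin (r - (r - c))) (r + c) → ℂ :=
    Sum.elim (fun p => A p.1 p.2) fun p => y p.1 p.2.1 p.2.2
  let x₁ : Par (Fin s) (Fin (r - c)) (Fin (r - (r - c))) (r + c) → ℂ :=
    Sum.elim (fun p => Pi.single (M := fun _ => ℂ) (Fin.castAdd c (e p.1)) 1 p.2)
      fun p => a p.1 p.2.1 (e p.2.2)
  obtain ⟨x, h3, h4⟩ := ((gen_iSup (vv b) (vv_PV b) k x₀).and (gen_iSup ww ww_PV k x₁)).exists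
  refine le_trans (add_le_add (le_trans ?_ h3) (le_trans (le_of_eq ?_) h4)) (vv_bound hc.le b x k)
  · have := (adm_span hc.le (vv_mem b x₀)).fd k
    rw [← h1]
    refine Submodule.finrank_mono (iSup_le fun i => ?_)
    induction i using Fin.cases with
    | zero => exact le_iSup_of_le none (pow_le_pow_left' (k1.trans hA.ge) k)
    | succ i =>
      refine le_iSup_of_le (some i) (pow_le_pow_left' ((k8 i).trans (sup_le ?_ ?_)) k)
      · rw [← hz]
        refine Submodule.span_mono (Set.range_subset_iff.2 fun t => ⟨Sum.inl t, ?_⟩)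
        exact (ww_eq b x₀ i t).trans (hy i t)
      · rw [← hb]
        exact Submodule.span_mono (Set.range_subset_iff.2 fun t => ⟨Sum.inr t, rfl⟩)
  · have h5 : ∀ i, ww x₁ i = (rename (Fin.castAdd c)).toLinearMap ∘ fun t => linF _ (a i t) := by
      intro i
      funext t
      rw [ww_eq b, comp_apply, linF, Fintype.linearCombination_apply, map_sum, ← e.sum_comp]
      refine Finset.sum_congr rfl fun j _ => ?_
      simp [x₁, vv, linF]
    have h6 : ⨆ i, Submodule.span ℂ (Set.range (ww x₁ i)) ^ k =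
        (⨆ i, W i ^ k).map (rename (Fin.castAdd c)).toLinearMap := by
      simp only [h5, Set.range_comp, Submodule.map_iSup, Submodule.map_pow, ← ha,
        Submodule.map_span]
    rw [← h2, h6]
    exact (Submodule.equivMapOfInjective _ (rename_injective _ (Fin.castAdd_injective r c))
      _).finrank_eq

theorem PF_eval {D : Type} {g : (κ → ℂ) → D → ℂ} (hg : ∀ μ, (fun x => g x μ) ∈ PF κ)
    (P : MvPolynomial D ℂ) : (fun x => eval (g x) P) ∈ PF κ := by
  induction P using MvPolynomial.induction_on with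
  | C a => simpa only [eval_C] using PF_const a
  | add p q hp hq => simp only [map_add]; exact add_mem hp hq
  | mul_X p μ hp => simpa only [map_mul, eval_X] using PF_mul hp (hg μ)

/-- Products of linear forms from the parametrised subspaces. -/
noncomputable def pr {n r k s : ℕ} (x : Fin s × Fin r × Fin n → ℂ) (t : Fin s × (Fin k → Fin r)) :
    MvPolynomial (Fin n) ℂ := ∏ l, linF _ fun a => x (t.1, t.2 l, a)

theorem pr_PV {n r k s : ℕ} (f : Fin s × Fin r × Fin n → κ) (t : Fin s × (Fin k → Fin r)) :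
    (fun x : κ → ℂ => pr (fun p => x (f p)) t) ∈ PV κ (Fin n) := by
  unfold pr
  exact PV_prod _ fun l _ => PV_linF fun a => PF_coord _

theorem PF_comb {T : Type} [Fintype T] {g : (κ → ℂ) → T → ℂ} (hg : ∀ t, (fun x => g x t) ∈ PF κ)
    {v : (κ → ℂ) → T → MvPolynomial σ ℂ} (hv : ∀ t, (fun x => v x t) ∈ PV κ σ) (m : σ →₀ ℕ) :
    (fun x => coeff m (∑ t, g x t • v x t)) ∈ PF κ := by
  simp only [coeff_sum, coeff_smul, smul_eq_mul]
  exact PF_sum _ fun t _ => PF_mul (hg t) (PV_coeff (hv t) m)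

theorem exists_pr {n r s : ℕ} {U : Fin s → Submodule ℂ (MvPolynomial (Fin n) ℂ)} (h : Adm r U)
    (k : ℕ) : ∃ x : Fin s × Fin r × Fin n → ℂ,
      Submodule.span ℂ (Set.range (pr (k := k) x)) = ⨆ i, U i ^ k := by
  choose v hv using fun i => exists_par (J := Fin r) (h i).1 (by simpa using (h i).2)
  refine ⟨fun p => v p.1 p.2.1 p.2.2, ?_⟩
  simp only [← hv]
  exact (iSup_pow_eq (fun i j => linF _ (v i j)) k).symm

/-- The count of parameters. -/
theorem rk_of_fills {n r k s : ℕ} (h : SecantFills (Fin n) k r s) :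
    NN n k ≤ rk n r k s + s * (r * n) := by
  by_contra hn
  obtain ⟨U, hU, h1⟩ := exists_rk n r k s
  obtain ⟨x₀, h2⟩ := exists_pr hU k
  obtain ⟨j, hj⟩ := exists_sub (pr (k := k) x₀)
  rw [← h2] at h1
  let D := Finset.finsuppAntidiag (Finset.univ : Finset (Fin n)) k
  choose c hc using fun μ : D => PF_comb (κ := (Fin s × Fin r × Fin n) ⊕ Fin _)
    (fun l => PF_coord (Sum.inr l)) (fun l => pr_PV Sum.inl (j l)) μ.1
  obtain ⟨P, h3, h4⟩ := exists_relation (by
    rw [Fintype.card_coe, Finset.card_finsuppAntidiag_nat_eq_choose]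
    simp only [Fintype.card_sum, Fintype.card_prod, Fintype.card_fin, h1, Finset.card_univ]
    rw [NN] at hn
    omega) c
  have h5 : ∀ᶠ x in gen (Fin s × Fin r × Fin n), ∀ G ∈ Submodule.span ℂ (Set.range (pr (k := k) x)),
      eval (fun μ : D => coeff μ.1 G) P = 0 := by
    filter_upwards [gen_li (fun l x => pr x (j l)) (fun l => pr_PV id (j l)) hj] with x hx G hG
    have := FiniteDimensional.span_of_finite ℂ (Set.finite_range (pr (k := k) x))
    have h5 : Submodule.span ℂ (Set.range fun l => pr x (j l)) =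
        Submodule.span ℂ (Set.range (pr (k := k) x)) := by
      refine Submodule.eq_of_le_of_finrank_le (Submodule.span_mono
        (Set.range_subset_iff.2 fun l => ⟨j l, rfl⟩)) ?_
      rw [finrank_span_eq_card hx, Fintype.card_fin, h1]
      have h6 := le_rk (adm_span (v := fun (i : Fin s) (l : Fin r) => linF _ fun a => x (i, l, a))
        (Fintype.card_fin r).le fun _ _ => linF_mem _) (Fintype.card_fin s).le k
      rwa [iSup_pow_eq] at h6
    obtain ⟨z, rfl⟩ := (Submodule.mem_span_range_iff_exists_fun ℂ).1 (h5 ▸ hG)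
    have h6 := hom_aeval (eval (Sum.elim x z)) (fun _ => eval_C _) c P
    rw [h4, map_zero] at h6
    simpa only [← hc, Sum.elim_inl, Sum.elim_inr] using h6.symm
  have h6 := h (rename Subtype.val P) (by
    rintro _ ⟨G, hG, rfl⟩
    choose V k1 k2 k3 using hG
    obtain ⟨x₁, k4⟩ := exists_pr (fun i => ⟨k1 i, (k2 i).le⟩ : Adm r V) k
    obtain ⟨z, hz⟩ := (Submodule.mem_span_range_iff_exists_fun ℂ).1 (k4 ▸ Submodule.sum_mem _
      fun i _ => Submodule.mem_iSup_of_mem i (k3 i) : ∑ i, G i ∈ Submodule.span ℂ _)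
    rw [eval_rename, ← hz]
    refine eq_zero_of_gen (PF_eval (fun μ : D => PF_comb (fun t => PF_const (z t))
      (pr_PV id) μ.1) P) ?_ x₁
    filter_upwards [h5] with x hx
    exact hx _ (Submodule.sum_mem _ fun t _ => Submodule.smul_mem _ _
      (Submodule.subset_span ⟨t, rfl⟩)))
  refine h3 (MvPolynomial.funext fun z => ?_)
  have h7 := h6 (∑ μ : D, monomial μ.1 (z μ)) (IsHomogeneous.sum _ _ _ fun μ _ =>
    isHomogeneous_monomial _ (mem_antidiag_iff.1 μ.2))
  rw [eval_rename] at h7
  rw [map_zero, ← h7]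
  congr 2
  funext μ
  simp [coeff_sum, coeff_monomial]

end Pool.Agent.P.MP_c64be1_ag.Sh
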