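import Pool.Agent.P.MP_c64be1_ag.Sh.Gen

/-! Multilinear functions of a finite set of vectors, and sets on which they cannot vanish. -/

namespace Pool.Agent.P.MP_c64be1_ag.Sh

open Filter Function

variable {ι L : Type}

/-- A product of coordinates. -/
def mono (A : Finset ι) (β : ι → L) : (ι → L → ℂ) → ℂ := fun η => ∏ a ∈ A, η a (β a)

/-- Multilinear functions of the vectors with index in `A`. -/
def TT (L : Type) (A : Finset ι) : Submodule ℂ ((ι → L → ℂ) → ℂ) :=
  Submodule.span ℂ (Set.range (mono (L := L) A))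

/-- Points of a monomial curve. -/
def rnc (ex : L → ℕ) (p : ℂ) : L → ℂ := fun β => p ^ ex β

/-- No nonzero multilinear function vanishes on `S`. -/
def Kill (A : Finset ι) (S : Set (ι → L → ℂ)) : Prop :=
  ∀ F ∈ TT L A, (∀ η ∈ S, F η = 0) → F = 0

theorem Kill.mono {A : Finset ι} {S S' : Set (ι → L → ℂ)} (h : Kill A S) (hS : S ⊆ S') :
    Kill A S' := fun F hF h0 => h F hF fun η hη => h0 η (hS hη)

theorem mono_mem (A : Finset ι) (β : ι → L) : mono A β ∈ TT L A := Submodule.subset_span ⟨β, rfl⟩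

theorem TT_ind {A : Finset ι} (p : ((ι → L → ℂ) → ℂ) → Prop) (h1 : ∀ β, p (mono A β))
    (h0 : p 0) (h2 : ∀ F G, p F → p G → p (F + G)) (h3 : ∀ (z : ℂ) F, p F → p (z • F))
    {F : (ι → L → ℂ) → ℂ} (hF : F ∈ TT L A) : p F := by
  induction hF using Submodule.span_induction with
  | mem F h => obtain ⟨β, rfl⟩ := h; exact h1 β
  | zero => exact h0
  | add F G _ _ k1 k2 => exact h2 F G k1 k2
  | smul z F _ k => exact h3 z F k

variable [DecidableEq ι]

theorem mono_update {A : Finset ι} {v : ι} (hv : v ∈ A) (β : ι → L) (η : ι → L → ℂ)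
    (ξ : L → ℂ) : mono A β (update η v ξ) = ξ (β v) * mono (A.erase v) β η := by
  rw [mono, ← Finset.mul_prod_erase _ _ hv, update_self]
  congr 1
  exact Finset.prod_congr rfl fun a ha => by rw [update_of_ne (Finset.ne_of_mem_erase ha)]

theorem TT_sub {A : Finset ι} {v : ι} (hv : v ∈ A) (ξ : L → ℂ) {F : (ι → L → ℂ) → ℂ}
    (hF : F ∈ TT L A) : (fun η => F (update η v ξ)) ∈ TT L (A.erase v) := by
  refine TT_ind (fun F => (fun η => F (update η v ξ)) ∈ TT L (A.erase v)) (fun β => ?_)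
    (zero_mem _) (fun F G k1 k2 => add_mem k1 k2) (fun z F k => Submodule.smul_mem _ z k) hF
  simp only [mono_update hv]
  exact Submodule.smul_mem _ (ξ (β v)) (mono_mem _ β)

theorem TT_lin [Fintype L] [DecidableEq L] {A : Finset ι} {v : ι} (hv : v ∈ A)
    {F : (ι → L → ℂ) → ℂ} (hF : F ∈ TT L A) (η : ι → L → ℂ) (ξ : L → ℂ) :
    F (update η v ξ) = ∑ β, ξ β * F (update η v (Pi.single β 1)) := by
  refine TT_ind (fun F => F (update η v ξ) = ∑ β, ξ β * F (update η v (Pi.single β 1)))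
    (fun β => ?_) (by simp) (fun F G k1 k2 => ?_) (fun z F k => ?_) hF
  · simp only [mono_update hv, Pi.single_apply, ite_mul, mul_ite, zero_mul, mul_zero, one_mul,
      Finset.sum_ite_eq, Finset.mem_univ, if_true]
  · simp only [Pi.add_apply, mul_add, Finset.sum_add_distrib, ← k1, ← k2]
  · simp only [Pi.smul_apply, smul_eq_mul, k, Finset.mul_sum, mul_left_comm z]

theorem vander [Fintype L] {ex : L → ℕ} (hex : Injective ex) {W : ℕ} (hW : ∀ β, ex β < W)
    {q : Fin W → ℂ} (hq : Injective q) {c : L → ℂ} (h : ∀ i, ∑ β, q i ^ ex β * c β = 0) (β : L) :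
    c β = 0 := by
  classical
  have h1 : (∑ β, Polynomial.monomial (ex β) (c β)) = 0 := by
    refine Polynomial.eq_zero_of_degree_lt_of_eval_index_eq_zero Finset.univ hq.injOn ?_
      fun i _ => ?_
    · refine (Polynomial.degree_sum_le _ _).trans_lt ((Finset.sup_lt_iff (WithBot.bot_lt_coe _)).2
        fun β _ => (Polynomial.degree_monomial_le _ _).trans_lt ?_)
      rw [Finset.card_univ, Fintype.card_fin]
      exact_mod_cast hW β
    · rw [Polynomial.eval_finsetSum, ← h i]
      exact Finset.sum_congr rfl fun β _ => by rw [Polynomial.eval_monomial, mul_comm]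
  have h2 := congrArg (fun P => Polynomial.coeff P (ex β)) h1
  simpa [Polynomial.coeff_monomial, hex.eq_iff] using h2

theorem kill_one [Fintype L] {ex : L → ℕ} (hex : Injective ex) {W : ℕ} (hW : ∀ β, ex β < W)
    {q : Fin W → ℂ} (hq : Injective q) {A : Finset ι} {v : ι} (hv : v ∈ A)
    {F : (ι → L → ℂ) → ℂ} (hF : F ∈ TT L A) {η : ι → L → ℂ}
    (h : ∀ i, F (update η v (rnc ex (q i))) = 0) : F η = 0 := by
  classical
  have h1 := vander hex hW hq (c := fun β => F (update η v (Pi.single β 1))) fun i =>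
    (TT_lin hv hF η (rnc ex (q i))).symm.trans (h i)
  rw [← update_eq_self v η, TT_lin hv hF]
  exact Finset.sum_eq_zero fun β _ => by rw [h1 β, mul_zero]

theorem kill_grid [Fintype L] {ex : L → ℕ} (hex : Injective ex) {W : ℕ} (hW : ∀ β, ex β < W)
    {q : Fin W → ℂ} (hq : Injective q) {A : Finset ι} {F : (ι → L → ℂ) → ℂ} (hF : F ∈ TT L A)
    (D : Finset ι) (hD : D ⊆ A) (η₀ : ι → L → ℂ)
    (h : ∀ η, (∀ j ∉ D, η j = η₀ j) → (∀ j ∈ D, ∃ i, η j = rnc ex (q i)) → F η = 0) :
    F η₀ = 0 := by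
  induction D using Finset.induction_on generalizing η₀ with
  | empty => exact h η₀ (fun _ _ => rfl) fun j hj => absurd hj (Finset.notMem_empty j)
  | insert v D hv ih =>
    refine kill_one hex hW hq (hD (Finset.mem_insert_self v D)) hF fun i => ?_
    refine ih ((Finset.subset_insert v D).trans hD) _ fun η h1 h2 => h η (fun j hj => ?_)
      fun j hj => ?_
    · rw [Finset.mem_insert, not_or] at hj
      rw [h1 j hj.2, update_of_ne hj.1]
    · rcases Finset.mem_insert.1 hj with rfl | hj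
      · exact ⟨i, by rw [h1 _ hv, update_self]⟩
      · exact h2 j hj

omit [DecidableEq ι] in
theorem TT_scale {A : Finset ι} {F : (ι → L → ℂ) → ℂ} (hF : F ∈ TT L A) (z : ι → ℂ)
    (η : ι → L → ℂ) : F (fun a β => z a * η a β) = (∏ a ∈ A, z a) * F η := by
  refine TT_ind (fun F => F (fun a β => z a * η a β) = (∏ a ∈ A, z a) * F η)
    (fun β => ?_) (by simp) (fun F G k1 k2 => ?_) (fun z F k => ?_) hF
  · simp only [mono, Finset.prod_mul_distrib]
  · simp only [Pi.add_apply, mul_add, k1, k2]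
  · simp only [Pi.smul_apply, smul_eq_mul, k, mul_left_comm z]

omit [DecidableEq ι] in
theorem gen_kill {κ S : Type} [Finite ι] [Finite L] (A : Finset ι)
    (η : S → (κ → ℂ) → ι → L → ℂ) (hη : ∀ s a β, (fun x => η s x a β) ∈ PF κ) {x₀ : κ → ℂ}
    (h : Kill A (Set.range fun s => η s x₀)) :
    ∀ᶠ x in gen κ, Kill A (Set.range fun s => η s x) := by
  have : FiniteDimensional ℂ (TT L A) := FiniteDimensional.span_of_finite ℂ (Set.finite_range _)
  let b := Module.finBasis ℂ (TT L A)
  have h1 : ∀ s, ∀ F ∈ TT L A, (fun x => F (η s x)) ∈ PF κ := fun s F hF =>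
    TT_ind (fun F => (fun x => F (η s x)) ∈ PF κ) (fun β => PF_prod _ fun a _ => hη s a _)
      (zero_mem _) (fun F G k1 k2 => add_mem k1 k2) (fun z F k => Subalgebra.smul_mem _ k z) hF
  have h2 : ∀ (f : Fin (Module.finrank ℂ (TT L A)) → ℂ) θ,
      (b.equivFun.symm f).1 θ = ∑ i, (b i).1 θ * f i := by
    intro f θ
    rw [b.equivFun_symm_apply, Submodule.coe_sum, Finset.sum_apply]
    exact Finset.sum_congr rfl fun i _ => mul_comm _ _
  have h3 := gen_inj (fun s i x => (b i).1 (η s x)) (fun s i => h1 s _ (b i).2) (x₀ := x₀)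
    fun f hf => by
      have h4 := h _ (b.equivFun.symm f).2 (by rintro _ ⟨s, rfl⟩; rw [h2]; exact hf s)
      exact b.equivFun.symm.map_eq_zero_iff.1 (Subtype.ext h4)
  filter_upwards [h3] with x hx F hF h0
  have h4 := hx (b.equivFun ⟨F, hF⟩) fun s => by
    rw [← h2, LinearEquiv.symm_apply_apply]
    exact h0 _ ⟨s, rfl⟩
  exact congrArg Subtype.val (b.equivFun.map_eq_zero_iff.1 h4)

/-- The union of the cylinders of a system of objects: the object `j` with edge `e` prescribes
the vectors with index in `e`. -/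
def Cyl {J : Type} (E : Set (J × Finset ι)) (π : J → ι → L → ℂ) : Set (ι → L → ℂ) :=
  {η | ∃ p ∈ E, ∀ a ∈ p.2, η a = π p.1 a}

theorem gen_cyl {κ J : Type} [Finite ι] [Finite L] (A : Finset ι) (E : Set (J × Finset ι))
    (π : (κ → ℂ) → J → ι → L → ℂ) (hπ : ∀ j a β, (fun x => π x j a β) ∈ PF κ) {x₀ : κ → ℂ}
    (h : Kill A (Cyl E (π x₀))) : ∀ᶠ x in gen κ, Kill A (Cyl E (π x)) := by
  have h1 : ∀ x, Cyl E (π x) = Set.range fun s : E × (ι → L → ℂ) =>
      fun a => if a ∈ s.1.1.2 then π x s.1.1.1 a else s.2 a := by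
    intro x
    ext η
    constructor
    · rintro ⟨p, hp, h2⟩
      refine ⟨(⟨p, hp⟩, η), funext fun a => ?_⟩
      by_cases ha : a ∈ p.2
      · exact (if_pos ha).trans (h2 a ha).symm
      · exact if_neg ha
    · rintro ⟨s, rfl⟩
      exact ⟨s.1.1, s.1.2, fun a ha => if_pos ha⟩
  simp only [h1] at h ⊢
  refine gen_kill A _ (fun s a β => ?_) h
  by_cases ha : a ∈ s.1.1.2
  · simp only [if_pos ha]
    exact hπ _ _ _
  · simp only [if_neg ha]
    exact PF_const _

end Pool.Agent.P.MP_c64be1_ag.Sh
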